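import Pool.Agent.Run7.h231.Star.Defs
import Pool.Agent.Run7.h231.Fin3

/-! A model of `RCA*₀` in which `Σ⁰₁` induction fails. -/

namespace Run7.h231.Star

open Filter Function

/-! ### The cut -/

def FF (i : Ix) (t : ℕ) : ℕ := i.sup (fun f => (Finset.range (t + 1)).sup f)

lemma le_FF (f : ℕ → ℕ) (i : Ix) (t m : ℕ) (hf : f ∈ i) (hm : m ≤ t) : f m ≤ FF i t := by
  have h1 : f m ≤ (Finset.range (t+1)).sup f :=
    Finset.le_sup (f := f) (Finset.mem_range.2 (by omega))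
  exact h1.trans (Finset.le_sup (f := fun f : ℕ → ℕ => (Finset.range (t+1)).sup f) hf)

def aseq : ℕ → Ix → ℕ
  | 0, i => i.card
  | k + 1, i => aseq k i + FF i (aseq k i) + 1

lemma aseq_lt (k : ℕ) (i : Ix) : aseq k i < aseq (k + 1) i := by
  show aseq k i < aseq k i + FF i (aseq k i) + 1
  omega

lemma aseq_mono (i : Ix) : StrictMono (fun k => aseq k i) :=
  strictMono_nat_of_lt_succ (fun k => aseq_lt k i)

def cc : Cut where
  a := aseq
  mono k i := (aseq_lt k i).le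
  grow f k := by
    filter_upwards [ev_mem f] with i hi m hm
    have := le_FF f i (aseq k i) m hi hm
    show f m < aseq k i + FF i (aseq k i) + 1
    omega

/-! ### The model -/

def ZZ : Set (Set Gm) := {B | ∃ Z : Ix → ℕ → ℕ, B = zs Z}

noncomputable abbrev NM : L2Model := gM (cutD_clo cc) ZZ

lemma N_lt {f g : Ix → ℕ} (hf : cc.Bd f) (hg : cc.Bd g) :
    NM.lt (mkD cc f) (mkD cc g) ↔ ∀ᶠ i in (U : Filter Ix), f i < g i := MM_lt hf hg

lemma N_add {f g : Ix → ℕ} (hf : cc.Bd f) (hg : cc.Bd g) :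
    NM.add (mkD cc f) (mkD cc g) = mkD cc (fun i => f i + g i) := MM_add hf hg

lemma N_mul {f g : Ix → ℕ} (hf : cc.Bd f) (hg : cc.Bd g) :
    NM.mul (mkD cc f) (mkD cc g) = mkD cc (fun i => f i * g i) := MM_mul hf hg

lemma N_one : NM.one = mkD cc (fun _ => 1) := MM_one

lemma N_zero : NM.zero = mkD cc (fun _ => 0) := MM_zero

lemma N_pair {f g : Ix → ℕ} (hf : cc.Bd f) (hg : cc.Bd g) :
    NM.pair (mkD cc f) (mkD cc g) = mkD cc (fun i => prc (f i) (g i)) := MM_pair hf hg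

lemma N_entry {a b i r : Ix → ℕ} (ha : cc.Bd a) (hb : cc.Bd b) (hi : cc.Bd i)
    (hr : cc.Bd r) : NM.Entry (mkD cc a) (mkD cc b) (mkD cc i) (mkD cc r) ↔
      ∀ᶠ ι in (U : Filter Ix), ent (a ι) (b ι) (i ι) = r ι := Data.ent_iff ha hb hi hr

lemma N_eq {f g : Ix → ℕ} (hf : cc.Bd f) (hg : cc.Bd g) :
    mkD cc f = mkD cc g ↔ ∀ᶠ i in (U : Filter Ix), f i = g i := by
  have h : mkD cc f = mkD cc g ↔ (mkD cc f).1 = (mkD cc g).1 := Subtype.ext_iff
  rw [h, mkD_val hf, mkD_val hg]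
  exact Filter.Germ.coe_eq

lemma sets_rep {Ξ : ℕ → Set NM.M} (h : ∀ k, Ξ k ∈ NM.S) :
    ∃ Z : ℕ → Ix → ℕ → ℕ, Ξ = xi (cutD_clo cc) ZZ Z := by
  have h1 : ∀ k, ∃ Z : Ix → ℕ → ℕ, Ξ k = {x | x.1 ∈ zs Z} := by
    intro k
    obtain ⟨B, ⟨Z, rfl⟩, h2⟩ := h k
    exact ⟨Z, h2⟩
  choose Z hZ using h1
  exact ⟨Z, funext hZ⟩

lemma nums_rep (ρ : ℕ → NM.M) : ∃ r : ℕ → Ix → ℕ, ∀ m, (ρ m).1 = (r m : Gm) := by
  have h1 : ∀ m, ∃ f : Ix → ℕ, (ρ m).1 = (f : Gm) := by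
    intro m
    obtain ⟨f, h1, h2⟩ := (ρ m).2
    exact ⟨f, h1⟩
  choose r hr using h1
  exact ⟨r, hr⟩

lemma upd_rep {ρ : ℕ → NM.M} {r : ℕ → Ix → ℕ} (hr : ∀ m, (ρ m).1 = (r m : Gm)) (x : ℕ)
    {f : Ix → ℕ} (hf : cc.Bd f) (m : ℕ) :
    (update ρ x (mkD cc f) m).1 = (update r x f m : Gm) := by
  rcases eq_or_ne m x with rfl | hne
  · rw [update_self, update_self]
    exact mkD_val hf
  · rw [update_of_ne hne, update_of_ne hne]
    exact hr m

lemma upd_fun (r : ℕ → Ix → ℕ) (x : ℕ) (f : Ix → ℕ) (i : Ix) :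
    (fun m => update r x f m i) = update (fun m => r m i) x (f i) := by
  funext m
  rcases eq_or_ne m x with rfl | hne
  · simp
  · rw [update_of_ne hne, update_of_ne hne]

lemma los1 (Z : ℕ → Ix → ℕ → ℕ) {φ : Fml} (hφ : φ.Bounded) {ρ : ℕ → NM.M} {r : ℕ → Ix → ℕ}
    (hr : ∀ m, (ρ m).1 = (r m : Gm)) {f : Ix → ℕ} (hf : cc.Bd f) :
    φ.Sat NM (xi (cutD_clo cc) ZZ Z) (update ρ 0 (mkD cc f)) ↔
      ∀ᶠ i in (U : Filter Ix), φ.sn (xn Z i) (update (fun m => r m i) 0 (f i)) := by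
  have h := los (c := cc) ZZ Z φ hφ (update ρ 0 (mkD cc f)) (update r 0 f) (upd_rep hr 0 hf)
  simp only [upd_fun] at h
  exact h

lemma los2 (Z : ℕ → Ix → ℕ → ℕ) {φ : Fml} (hφ : φ.Bounded) {ρ : ℕ → NM.M} {r : ℕ → Ix → ℕ}
    (hr : ∀ m, (ρ m).1 = (r m : Gm)) {f g : Ix → ℕ} (hf : cc.Bd f) (hg : cc.Bd g) :
    φ.Sat2 NM (xi (cutD_clo cc) ZZ Z) ρ (mkD cc f) (mkD cc g) ↔
      ∀ᶠ i in (U : Filter Ix), φ.sn (xn Z i) (update (update (fun m => r m i) 0 (f i)) 1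
        (g i)) := by
  have h := los (c := cc) ZZ Z φ hφ (update (update ρ 0 (mkD cc f)) 1 (mkD cc g))
    (update (update r 0 f) 1 g) (upd_rep (upd_rep hr 0 hf) 1 hg)
  simp only [upd_fun] at h
  exact h

lemma N_induction (φ : Fml) (hφ : φ.Bounded) (Ξ : ℕ → Set NM.M) (hΞ : ∀ k, Ξ k ∈ NM.S)
    (ρ : ℕ → NM.M) (h0 : φ.Sat NM Ξ (update ρ 0 NM.zero))
    (hs : ∀ n, φ.Sat NM Ξ (update ρ 0 n) → φ.Sat NM Ξ (update ρ 0 (NM.add n NM.one)))
    (n : NM.M) : φ.Sat NM Ξ (update ρ 0 n) := by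
  obtain ⟨Z, rfl⟩ := sets_rep hΞ
  obtain ⟨r, hr⟩ := nums_rep ρ
  by_contra hn
  obtain ⟨f, hf, rfl⟩ := exists_rep n
  rw [los1 Z hφ hr hf, ← Ultrafilter.eventually_not] at hn
  rw [N_zero, los1 Z hφ hr (Cut.bd_const 0)] at h0
  let bad : Ix → Set ℕ := fun i => {m | ¬ φ.sn (xn Z i) (update (fun m => r m i) 0 m)}
  let g : Ix → ℕ := fun i => sInf (bad i)
  have hg1 : ∀ᶠ i in (U : Filter Ix), g i ≤ f i ∧ g i ∈ bad i := by
    filter_upwards [hn] with i hi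
    have h1 : f i ∈ bad i := hi
    exact ⟨Nat.sInf_le h1, Nat.sInf_mem ⟨_, h1⟩⟩
  have hg : cc.Bd g := Cut.bd_le hf (hg1.mono fun i hi => hi.1)
  let g' : Ix → ℕ := fun i => g i - 1
  have hg' : cc.Bd g' := Cut.bd_le hg (Eventually.of_forall fun i => Nat.sub_le _ _)
  have hpos : ∀ᶠ i in (U : Filter Ix), 0 < g i := by
    filter_upwards [h0, hg1] with i h1 h2
    by_contra hcon
    have h3 : g i = 0 := by omega
    have h4 := h2.2
    rw [h3] at h4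
    exact h4 h1
  have h1 : φ.Sat NM (xi (cutD_clo cc) ZZ Z) (update ρ 0 (mkD cc g')) := by
    rw [los1 Z hφ hr hg']
    filter_upwards [hpos] with i hi
    by_contra hcon
    have h2 : g' i ∈ bad i := hcon
    have h3 : g i ≤ g' i := Nat.sInf_le h2
    simp only [g'] at h3
    omega
  have h2 := hs _ h1
  rw [N_one, N_add hg' (Cut.bd_const 1), los1 Z hφ hr (bd_add hg' (Cut.bd_const 1))] at h2
  obtain ⟨i, h3, h4, h5⟩ := (h2.and (hg1.and hpos)).exists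
  have h6 : g' i + 1 = g i := by simp only [g']; omega
  rw [h6] at h3
  exact h4.2 h3

open Classical in
lemma N_comprehension (φ ψ : Fml) (hφ : φ.Bounded) (hψ : ψ.Bounded) (Ξ : ℕ → Set NM.M)
    (hΞ : ∀ k, Ξ k ∈ NM.S) (ρ : ℕ → NM.M)
    (h : ∀ n, (∃ x, φ.Sat2 NM Ξ ρ n x) ↔ ∀ x, ψ.Sat2 NM Ξ ρ n x) :
    ∃ Z ∈ NM.S, ∀ n, n ∈ Z ↔ ∃ x, φ.Sat2 NM Ξ ρ n x := by
  obtain ⟨Z, rfl⟩ := sets_rep hΞ
  obtain ⟨r, hr⟩ := nums_rep ρ
  let P : Ix → ℕ → ℕ → Prop := fun i n y =>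
    φ.sn (xn Z i) (update (update (fun m => r m i) 0 n) 1 y)
  let Q : Ix → ℕ → ℕ → Prop := fun i n y =>
    ψ.sn (xn Z i) (update (update (fun m => r m i) 0 n) 1 y)
  let W : Ix → ℕ → ℕ := fun i n => if ∃ y, P i n y ∧ ∀ y' < y, Q i n y' then 1 else 0
  have hWi : ∀ i n, W i n = 1 ↔ ∃ y, P i n y ∧ ∀ y' < y, Q i n y' := by
    intro i n
    simp only [W]
    split_ifs with h1
    · exact iff_of_true rfl h1
    · exact iff_of_false (by norm_num) h1
  refine ⟨{x | x.1 ∈ zs W}, ⟨zs W, ⟨W, rfl⟩, rfl⟩, fun n => ?_⟩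
  obtain ⟨f, hf, rfl⟩ := exists_rep n
  have hmem : mkD cc f ∈ ({x | x.1 ∈ zs W} : Set NM.M) ↔
      ∀ᶠ i in (U : Filter Ix), ∃ y, P i (f i) y ∧ ∀ y' < y, Q i (f i) y' := by
    have h1 : mkD cc f ∈ ({x | x.1 ∈ zs W} : Set NM.M) ↔ (mkD cc f).1 ∈ zs W := Iff.rfl
    rw [h1, mkD_mem hf]
    simp only [hWi]
  rw [hmem]
  constructor
  · intro h1
    obtain ⟨y, hy⟩ := h1.choice
    by_cases hb : cc.Bd y
    · refine ⟨mkD cc y, ?_⟩
      rw [los2 Z hφ hr hf hb]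
      exact hy.mono fun i hi => hi.1
    · rw [h]
      intro x
      obtain ⟨g, hg, rfl⟩ := exists_rep x
      rw [los2 Z hψ hr hf hg]
      have h2 : ∀ᶠ i in (U : Filter Ix), g i < y i := by
        by_contra hcon
        rw [← Ultrafilter.eventually_not] at hcon
        exact hb (Cut.bd_le hg (hcon.mono fun i hi => by omega))
      filter_upwards [hy, h2] with i h3 h4
      exact h3.2 _ h4
  · rintro ⟨x, hx⟩
    have h1 := (h _).1 ⟨x, hx⟩
    obtain ⟨g, hg, rfl⟩ := exists_rep x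
    rw [los2 Z hφ hr hf hg] at hx
    by_contra hcon
    rw [← Ultrafilter.eventually_not] at hcon
    have h2 : ∀ᶠ i in (U : Filter Ix), ∃ y', y' < g i ∧ ¬ Q i (f i) y' := by
      filter_upwards [hcon, hx] with i h3 h4
      by_contra h5
      apply h3
      refine ⟨g i, h4, fun y' hy' => ?_⟩
      by_contra h6
      exact h5 ⟨y', hy', h6⟩
    obtain ⟨y', hy'⟩ := h2.choice
    have hb : cc.Bd y' := Cut.bd_le hg (hy'.mono fun i hi => hi.1.le)
    have h3 := h1 (mkD cc y')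
    rw [los2 Z hψ hr hf hb] at h3
    obtain ⟨i, h4, h5⟩ := (h3.and hy').exists
    exact h5.2 h4

lemma N_exp (x : NM.M) : ∃ y, NM.IsPow x y := by
  obtain ⟨f, hf, rfl⟩ := exists_rep x
  choose A B hAB using fun n => beta_exists (fun j => 2 ^ j) (n + 1)
  have hA : cc.Bd (fun i => A (f i)) := Cut.bd_map A hf
  have hB : cc.Bd (fun i => B (f i)) := Cut.bd_map B hf
  have hP : ∀ g, cc.Bd g → cc.Bd (fun i => 2 ^ (g i)) := fun g hg =>
    Cut.bd_map (fun n : ℕ => 2 ^ n) hg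
  refine ⟨mkD cc (fun i => 2 ^ (f i)), mkD cc (fun i => A (f i)), mkD cc (fun i => B (f i)),
    ⟨?_, ?_⟩, ?_⟩
  · rw [N_zero, N_one, N_entry hA hB (Cut.bd_const 0) (Cut.bd_const 1)]
    refine Eventually.of_forall fun i => ?_
    exact hAB (f i) 0 (by omega)
  · intro j hj
    obtain ⟨g, hg, rfl⟩ := exists_rep j
    rw [N_lt hg hf] at hj
    refine ⟨mkD cc (fun i => 2 ^ (g i)), ?_, ?_⟩
    · rw [N_entry hA hB hg (hP g hg)]
      filter_upwards [hj] with i hi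
      exact hAB (f i) (g i) (by omega)
    · rw [N_one, N_add hg (Cut.bd_const 1), N_add (hP g hg) (hP g hg),
        N_entry hA hB (bd_add hg (Cut.bd_const 1)) (bd_add (hP g hg) (hP g hg))]
      filter_upwards [hj] with i hi
      rw [hAB (f i) (g i + 1) (by omega)]
      ring
  · rw [N_entry hA hB hf (hP f hf)]
    refine Eventually.of_forall fun i => ?_
    exact hAB (f i) (f i) (by omega)

theorem NM_rca0Star : RCA0Star NM where
  add_assoc x y z := Subtype.ext (add_assoc x.1 y.1 z.1)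
  add_comm x y := Subtype.ext (add_comm x.1 y.1)
  add_zero x := Subtype.ext (add_zero x.1)
  mul_assoc x y z := Subtype.ext (mul_assoc x.1 y.1 z.1)
  mul_comm x y := Subtype.ext (mul_comm x.1 y.1)
  mul_one x := Subtype.ext (mul_one x.1)
  mul_zero x := Subtype.ext (mul_zero x.1)
  mul_add x y z := Subtype.ext (mul_add x.1 y.1 z.1)
  lt_irrefl x := lt_irrefl x.1
  lt_trans x y z h1 h2 := lt_trans (a := x.1) (b := y.1) (c := z.1) h1 h2
  lt_total x y := by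
    rcases lt_trichotomy x.1 y.1 with h | h | h
    · exact Or.inl h
    · exact Or.inr (Or.inl (Subtype.ext h))
    · exact Or.inr (Or.inr h)
  add_lt x y z h := by
    obtain ⟨f, hf, rfl⟩ := exists_rep x
    obtain ⟨g, hg, rfl⟩ := exists_rep y
    obtain ⟨k, hk, rfl⟩ := exists_rep z
    rw [N_lt hf hg] at h
    rw [N_add hf hk, N_add hg hk, N_lt (bd_add hf hk) (bd_add hg hk)]
    filter_upwards [h] with i hi
    omega
  mul_lt x y z h h' := by
    obtain ⟨f, hf, rfl⟩ := exists_rep x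
    obtain ⟨g, hg, rfl⟩ := exists_rep y
    obtain ⟨k, hk, rfl⟩ := exists_rep z
    rw [N_lt hf hg] at h
    rw [N_zero, N_lt (Cut.bd_const 0) hk] at h'
    rw [N_mul hf hk, N_mul hg hk, N_lt (bd_mul hf hk) (bd_mul hg hk)]
    filter_upwards [h, h'] with i hi hi'
    exact Nat.mul_lt_mul_of_pos_right hi hi'
  exists_sub x y h := by
    obtain ⟨f, hf, rfl⟩ := exists_rep x
    obtain ⟨g, hg, rfl⟩ := exists_rep y
    rw [N_lt hf hg] at h
    have hb : cc.Bd (fun i => g i - f i) :=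
      Cut.bd_le hg (Eventually.of_forall fun i => Nat.sub_le _ _)
    refine ⟨mkD cc (fun i => g i - f i), ?_⟩
    rw [N_add hf hb, N_eq (bd_add hf hb) hg]
    filter_upwards [h] with i hi
    omega
  zero_lt_one := by
    rw [N_zero, N_one, N_lt (Cut.bd_const 0) (Cut.bd_const 1)]
    exact Eventually.of_forall fun _ => Nat.zero_lt_one
  not_lt_zero x h := by
    obtain ⟨f, hf, rfl⟩ := exists_rep x
    rw [N_zero, N_lt hf (Cut.bd_const 0)] at h
    obtain ⟨i, hi⟩ := h.exists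
    omega
  discrete x h := by
    obtain ⟨f, hf, rfl⟩ := exists_rep x
    rw [N_zero, N_one, N_lt (Cut.bd_const 0) hf, N_lt hf (Cut.bd_const 1)] at h
    obtain ⟨i, h1, h2⟩ := (h.1.and h.2).exists
    omega
  exp := N_exp
  sets_nonempty := ⟨{x | x.1 ∈ zs (fun _ _ => 1)}, zs (fun _ _ => 1), ⟨_, rfl⟩, rfl⟩
  bounded_induction := N_induction
  delta_comprehension := N_comprehension

/-! ### Failure of `Σ⁰₁` induction -/

def pairT (s t : Trm) : Trm := .add (.mul (.add s t) (.add s t)) s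

def exF (x : ℕ) (φ : Fml) : Fml := .neg (.all x (.neg φ))

def impF (φ ψ : Fml) : Fml := .neg (.and φ (.neg ψ))

/-- Induction for the `Σ⁰₁` predicate `∃ x, pair n x ∈ X`. -/
def indF : Fml :=
  impF (.and (exF 1 (.mem (pairT .zero (.var 1)) 0))
    (.all 0 (impF (exF 1 (.mem (pairT (.var 0) (.var 1)) 0))
      (exF 1 (.mem (pairT (.add (.var 0) .one) (.var 1)) 0)))))
    (.all 0 (exF 1 (.mem (pairT (.var 0) (.var 1)) 0)))

lemma indF_sat (𝓜 : L2Model) (Ξ : ℕ → Set 𝓜.M) (ρ : ℕ → 𝓜.M) : indF.Sat 𝓜 Ξ ρ ↔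
    ((∃ x, 𝓜.pair 𝓜.zero x ∈ Ξ 0) → (∀ n, (∃ x, 𝓜.pair n x ∈ Ξ 0) →
      ∃ x, 𝓜.pair (𝓜.add n 𝓜.one) x ∈ Ξ 0) → ∀ n, ∃ x, 𝓜.pair n x ∈ Ξ 0) := by
  simp only [indF, impF, exF, pairT, Fml.Sat, Trm.val, update_self, update_of_ne, ne_eq,
    zero_ne_one, not_false_eq_true, L2Model.pair]
  push Not
  tauto

/-- The set of all codes of pairs `(n, a_n)`, where `a_n` is the cofinal sequence of the cut. -/
noncomputable def ZA : Ix → ℕ → ℕ :=
  open Classical in fun i y => if ∃ n, y = prc n (aseq n i) then 1 else 0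

lemma mem_ZA {f g : Ix → ℕ} (hf : cc.Bd f) (hg : cc.Bd g) :
    NM.pair (mkD cc f) (mkD cc g) ∈ ({x | x.1 ∈ zs ZA} : Set NM.M) ↔
      ∀ᶠ i in (U : Filter Ix), g i = aseq (f i) i := by
  rw [N_pair hf hg]
  have h1 : mkD cc (fun i => prc (f i) (g i)) ∈ ({x | x.1 ∈ zs ZA} : Set NM.M) ↔
      (mkD cc (fun i => prc (f i) (g i))).1 ∈ zs ZA := Iff.rfl
  rw [h1, mkD_mem (bd_prc hf hg)]
  apply eventually_congr
  refine Eventually.of_forall fun i => ?_
  unfold ZA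
  split_ifs with h2
  · refine iff_of_true rfl ?_
    obtain ⟨n, h3⟩ := h2
    obtain ⟨h4, h5⟩ := prc_inj h3
    rw [h5, h4]
  · refine iff_of_false (by norm_num) ?_
    intro h3
    exact h2 ⟨f i, by rw [h3]⟩

theorem NM_not_ind : ¬ NM.TruePi11 indF := by
  intro h
  let X : Set NM.M := {x | x.1 ∈ zs ZA}
  have hX : X ∈ NM.S := ⟨zs ZA, ⟨ZA, rfl⟩, rfl⟩
  have h1 := (indF_sat NM (fun _ => X) (fun _ => NM.zero)).1 (h _ (fun _ => hX) _)
  -- the values of the sequence at standard numbers belong to the cut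
  have hstd : ∀ (k : ℕ) (f : Ix → ℕ), cc.Bd f → (∀ᶠ i in (U : Filter Ix), f i = k) →
      ∃ x, NM.pair (mkD cc f) x ∈ X := by
    intro k f hf hfk
    refine ⟨mkD cc (aseq k), ?_⟩
    refine (mem_ZA hf (Cut.bd_a (c := cc) k)).2 ?_
    filter_upwards [hfk] with i hi
    rw [hi]
    rfl
  have hfin : ∀ (f : Ix → ℕ), cc.Bd f → (∃ x, NM.pair (mkD cc f) x ∈ X) →
      ∃ k, ∀ᶠ i in (U : Filter Ix), f i = k := by
    rintro f hf ⟨x, hx⟩
    obtain ⟨g, hg, rfl⟩ := exists_rep x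
    replace hx := (mem_ZA hf hg).1 hx
    obtain ⟨k, hk⟩ := Cut.bd_nat.1 hg
    have h2 : ∀ᶠ i in (U : Filter Ix), f i < k + 1 := by
      filter_upwards [hx, hk] with i h3 h4
      rw [h3] at h4
      have h5 : aseq (f i) i ≤ aseq k i := h4
      have h6 := (aseq_mono i).le_iff_le.1 h5
      omega
    obtain ⟨b, hb⟩ := ultra_const U (fun i => (⟨min (f i) k, by omega⟩ : Fin (k + 1)))
    refine ⟨b, ?_⟩
    filter_upwards [hb, h2] with i h3 h4
    have h5 := congrArg Fin.val h3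
    simp only at h5
    omega
  have h2 := h1 (by
    rw [N_zero]
    exact hstd 0 _ (Cut.bd_const 0) (Eventually.of_forall fun _ => rfl)) (by
    intro n hn
    obtain ⟨f, hf, rfl⟩ := exists_rep n
    obtain ⟨k, hk⟩ := hfin f hf hn
    rw [N_one, N_add hf (Cut.bd_const 1)]
    refine hstd (k + 1) _ (bd_add hf (Cut.bd_const 1)) ?_
    filter_upwards [hk] with i hi
    omega) (mkD cc (aseq 0))
  obtain ⟨k, hk⟩ := hfin _ (Cut.bd_a (c := cc) 0) h2
  obtain ⟨i, h3, h4⟩ := (hk.and (ev_card (k + 1))).exists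
  have h5 : i.card = k := h3
  omega

end Run7.h231.Star
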