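import Pool.Agent.Run7.h231.Star.Calc

/-! Arithmetic in models of `RCA*₀`. -/

namespace Run7.h231.Star

open Function

set_option linter.unusedSectionVars false
set_option linter.unusedVariables false

class Star (𝓜 : L2Model) : Prop where
  out : RCA0Star 𝓜

variable {𝓜 : L2Model} [hW : Star 𝓜]

instance : Zero 𝓜.M := ⟨𝓜.zero⟩
instance : One 𝓜.M := ⟨𝓜.one⟩
instance : Add 𝓜.M := ⟨𝓜.add⟩
instance : Mul 𝓜.M := ⟨𝓜.mul⟩
instance : LT 𝓜.M := ⟨𝓜.lt⟩
instance : LE 𝓜.M := ⟨fun x y => 𝓜.lt x y ∨ x = y⟩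

instance : CommSemiring 𝓜.M where
  add_assoc := hW.out.add_assoc
  zero_add x := (hW.out.add_comm 𝓜.zero x).trans (hW.out.add_zero x)
  add_zero := hW.out.add_zero
  add_comm := hW.out.add_comm
  mul_assoc := hW.out.mul_assoc
  one_mul x := (hW.out.mul_comm 𝓜.one x).trans (hW.out.mul_one x)
  mul_one := hW.out.mul_one
  zero_mul x := (hW.out.mul_comm 𝓜.zero x).trans (hW.out.mul_zero x)
  mul_zero := hW.out.mul_zero
  mul_comm := hW.out.mul_comm
  left_distrib := hW.out.mul_add
  right_distrib x y z := by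
    show 𝓜.mul (𝓜.add x y) z = 𝓜.add (𝓜.mul x z) (𝓜.mul y z)
    rw [hW.out.mul_comm, hW.out.mul_add, hW.out.mul_comm z x, hW.out.mul_comm z y]
  nsmul := nsmulRec
  npow := npowRec

noncomputable instance : LinearOrder 𝓜.M where
  le_refl x := Or.inr rfl
  le_trans x y z := by
    rintro (h1 | rfl) (h2 | rfl)
    · exact Or.inl (hW.out.lt_trans _ _ _ h1 h2)
    · exact Or.inl h1
    · exact Or.inl h2
    · exact Or.inr rfl
  lt_iff_le_not_ge x y := by
    constructor
    · intro h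
      refine ⟨Or.inl h, ?_⟩
      rintro (h2 | rfl)
      · exact hW.out.lt_irrefl _ (hW.out.lt_trans _ _ _ h h2)
      · exact hW.out.lt_irrefl _ h
    · rintro ⟨h1 | rfl, h2⟩
      · exact h1
      · exact absurd (Or.inr rfl) h2
  le_antisymm x y := by
    rintro (h1 | rfl) (h2 | h2)
    · exact absurd (hW.out.lt_trans _ _ _ h1 h2) (hW.out.lt_irrefl _)
    · exact h2.symm
    · rfl
    · rfl
  le_total x y := by
    rcases hW.out.lt_total x y with h | rfl | h
    · exact Or.inl (Or.inl h)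
    · exact Or.inl (Or.inr rfl)
    · exact Or.inr (Or.inl h)
  toDecidableLE := Classical.decRel _

lemma add_lt' {x y : 𝓜.M} (z : 𝓜.M) (h : x < y) : x + z < y + z := hW.out.add_lt x y z h

instance : IsStrictOrderedRing 𝓜.M where
  add_le_add_left x y h z := by
    rcases lt_or_eq_of_le h with h | rfl
    · exact le_of_lt (add_lt' z h)
    · exact le_rfl
  add_le_add_right x y h z := by
    rcases lt_or_eq_of_le h with h | rfl
    · rw [add_comm z x, add_comm z y]
      exact le_of_lt (add_lt' z h)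
    · exact le_rfl
  le_of_add_le_add_left x y z h := by
    by_contra hcon
    push Not at hcon
    have := add_lt' x hcon
    rw [add_comm z x, add_comm y x] at this
    exact absurd h (not_le.2 this)
  le_of_add_le_add_right x y z h := by
    by_contra hcon
    push Not at hcon
    have := add_lt' x hcon
    exact absurd h (not_le.2 this)
  zero_le_one := Or.inl hW.out.zero_lt_one
  exists_pair_ne := ⟨0, 1, fun h => hW.out.lt_irrefl (0 : 𝓜.M) (by
    have := hW.out.zero_lt_one
    have h' : 𝓜.zero = 𝓜.one := h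
    rw [← h'] at this
    exact this)⟩
  mul_lt_mul_of_pos_left c hc x y h := by
    rw [mul_comm c x, mul_comm c y]
    exact hW.out.mul_lt x y c h hc
  mul_lt_mul_of_pos_right c hc x y h := hW.out.mul_lt x y c h hc

lemma zero_le' (x : 𝓜.M) : 0 ≤ x := not_lt.1 (hW.out.not_lt_zero x)

lemma exists_sub' {x y : 𝓜.M} (h : x ≤ y) : ∃ z, y = x + z := by
  rcases h with h | rfl
  · obtain ⟨z, hz⟩ := hW.out.exists_sub x y h
    exact ⟨z, hz.symm⟩
  · exact ⟨0, (add_zero x).symm⟩

lemma one_le_of_pos {x : 𝓜.M} (h : 0 < x) : 1 ≤ x := by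
  by_contra hcon
  exact hW.out.discrete x ⟨h, not_le.1 hcon⟩

lemma succ_le' {x y : 𝓜.M} (h : x < y) : x + 1 ≤ y := by
  obtain ⟨z, rfl⟩ := exists_sub' (le_of_lt h)
  have : 0 < z := by
    rcases lt_or_eq_of_le (zero_le' z) with h1 | h1
    · exact h1
    · rw [← h1, add_zero] at h
      exact absurd h (lt_irrefl _)
  have := one_le_of_pos this
  gcongr

lemma lt_succ' {x y : 𝓜.M} : x < y + 1 ↔ x ≤ y := by
  constructor
  · intro h
    by_contra hcon
    exact absurd (succ_le' (not_le.1 hcon)) (not_le.2 h)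
  · intro h
    exact lt_of_le_of_lt h (lt_add_one y)

lemma eq_zero_or_succ (x : 𝓜.M) : x = 0 ∨ ∃ y, x = y + 1 := by
  rcases lt_or_eq_of_le (zero_le' x) with h | h
  · obtain ⟨z, rfl⟩ := exists_sub' (one_le_of_pos h)
    exact Or.inr ⟨z, add_comm _ _⟩
  · exact Or.inl h.symm

/-! ### The calculus again -/

lemma Tm.add' {f g : (ℕ → 𝓜.M) → 𝓜.M} (hf : Tm f) (hg : Tm g) : Tm (fun v => f v + g v) :=
  hf.add hg

lemma Tm.mul' {f g : (ℕ → 𝓜.M) → 𝓜.M} (hf : Tm f) (hg : Tm g) : Tm (fun v => f v * g v) :=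
  hf.mul hg

lemma D0.eq' {f g : (ℕ → 𝓜.M) → 𝓜.M} (hf : Tm f) (hg : Tm g) : D0 (fun v => f v = g v) :=
  D0.eq hW.out.sets_nonempty hf hg

lemma D0.lt' {f g : (ℕ → 𝓜.M) → 𝓜.M} (hf : Tm f) (hg : Tm g) : D0 (fun v => f v < g v) :=
  D0.lt hW.out.sets_nonempty hf hg

lemma D0.le' {f g : (ℕ → 𝓜.M) → 𝓜.M} (hf : Tm f) (hg : Tm g) : D0 (fun v => f v ≤ g v) :=
  (D0.lt' hg hf).not.congr fun _ => not_lt.symm

lemma D0.ball' {P : 𝓜.M → (ℕ → 𝓜.M) → Prop} {f : (ℕ → 𝓜.M) → 𝓜.M} (hf : Tm f)
    (h : D0 (fun v => P (v 0) (fun n => v (n + 1)))) : D0 (fun v => ∀ a, a < f v → P a v) :=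
  D0.ball hf h

lemma D0.bex' {P : 𝓜.M → (ℕ → 𝓜.M) → Prop} {f : (ℕ → 𝓜.M) → 𝓜.M} (hf : Tm f)
    (h : D0 (fun v => P (v 0) (fun n => v (n + 1)))) : D0 (fun v => ∃ a, a < f v ∧ P a v) :=
  D0.bex hf h

lemma D0.balle {P : 𝓜.M → (ℕ → 𝓜.M) → Prop} {f : (ℕ → 𝓜.M) → 𝓜.M} (hf : Tm f)
    (h : D0 (fun v => P (v 0) (fun n => v (n + 1)))) : D0 (fun v => ∀ a, a ≤ f v → P a v) :=
  (D0.ball' (hf.add' (Tm.const 1)) h).congr fun v => by simp only [lt_succ']

lemma D0.bexe {P : 𝓜.M → (ℕ → 𝓜.M) → Prop} {f : (ℕ → 𝓜.M) → 𝓜.M} (hf : Tm f)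
    (h : D0 (fun v => P (v 0) (fun n => v (n + 1)))) : D0 (fun v => ∃ a, a ≤ f v ∧ P a v) :=
  (D0.bex' (hf.add' (Tm.const 1)) h).congr fun v => by simp only [lt_succ']

lemma D0.rel1 {P : 𝓜.M → Prop} (hP : {n | P n} ∈ 𝓜.S) {f : (ℕ → 𝓜.M) → 𝓜.M} (hf : Tm f) :
    D0 (fun v => P (f v)) := D0.mem hf hP

lemma least {P : 𝓜.M → Prop} (hP : D0 (fun v => P (v 0))) {x : 𝓜.M} (hx : P x) :
    ∃ m, m ≤ x ∧ P m ∧ ∀ k, k < m → ¬ P k := by
  by_contra hcon
  push Not at hcon
  have hP' : {n | P n} ∈ 𝓜.S := compr0 hW.out hP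
  have key : ∀ n, ∀ k, k < n → k ≤ x → ¬ P k := by
    intro n
    refine induct hW.out (P := fun n => ∀ k, k < n → k ≤ x → ¬ P k) ?_ ?_ ?_ n
    · have : D0 (fun v => ∀ k, k < v 0 → k ≤ x → ¬ k ∈ {n | P n}) := by (repeat' (beta_reduce; first
      | assumption | with_reducible exact Tm.const _ | with_reducible exact Tm.var _
      | with_reducible apply Tm.add' | with_reducible apply Tm.mul'
      | with_reducible apply Tm.pair | with_reducible apply D0.eq' | with_reducible apply D0.lt'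
      | with_reducible apply D0.le' | with_reducible apply D0.mem | with_reducible apply D0.and
      | with_reducible apply D0.or | with_reducible apply D0.iff | with_reducible apply D0.not
      | with_reducible apply D0.ball' | with_reducible apply D0.balle
      | with_reducible apply D0.bex' | with_reducible apply D0.bexe
      | with_reducible apply D0.imp))
      exact this
    · intro k hk
      exact absurd hk (not_lt.2 (zero_le' k))
    · intro n ih k hk hkx hPk
      have hk' : k ≤ n := lt_succ'.1 hk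
      obtain ⟨l, hl, hl2⟩ := hcon k hkx hPk
      exact ih l (lt_of_lt_of_le hl hk') (le_trans (le_of_lt hl) hkx) hl2
  exact key (x + 1) x (lt_add_one x) le_rfl hx

/-! ### Division and pairing -/

lemma div_exists {m : 𝓜.M} (hm : 0 < m) (x : 𝓜.M) :
    ∃ q, q ≤ x ∧ ∃ r, r < m ∧ x = q * m + r := by
  refine induct hW.out (P := fun x => ∃ q, q ≤ x ∧ ∃ r, r < m ∧ x = q * m + r) (by (repeat' (beta_reduce; first
    | assumption | with_reducible exact Tm.const _ | with_reducible exact Tm.var _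
    | with_reducible apply Tm.add' | with_reducible apply Tm.mul' | with_reducible apply Tm.pair
    | with_reducible apply D0.eq' | with_reducible apply D0.lt' | with_reducible apply D0.le'
    | with_reducible apply D0.mem | with_reducible apply D0.and | with_reducible apply D0.or
    | with_reducible apply D0.iff | with_reducible apply D0.not | with_reducible apply D0.ball'
    | with_reducible apply D0.balle | with_reducible apply D0.bex'
    | with_reducible apply D0.bexe | with_reducible apply D0.imp))) ?_ ?_ x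
  · refine ⟨0, le_rfl, 0, hm, ?_⟩
    show (0 : 𝓜.M) = 0 * m + 0
    ring
  · rintro n ⟨q, hq, r, hr, h⟩
    rcases lt_or_eq_of_le (succ_le' hr) with h1 | h1
    · refine ⟨q, le_trans hq (le_of_lt (lt_add_one n)), r + 1, h1, ?_⟩
      show n + 1 = q * m + (r + 1)
      rw [h]
      ring
    · refine ⟨q + 1, add_le_add_left hq 1, 0, hm, ?_⟩
      show n + 1 = (q + 1) * m + 0
      rw [h, ← h1]
      ring

lemma div_unique_aux {m q r q' r' : 𝓜.M} (hr : r < m) (h : q < q') :
    q * m + r < q' * m + r' := by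
  have h1 : q + 1 ≤ q' := succ_le' h
  have hm : 0 ≤ m := zero_le' m
  have h2 : (q + 1) * m ≤ q' * m := mul_le_mul_of_nonneg_right h1 hm
  have h3 : (q + 1) * m = q * m + m := by ring
  have h4 := zero_le' r'
  grind

lemma div_unique {m q r q' r' : 𝓜.M} (hr : r < m) (hr' : r' < m)
    (h : q * m + r = q' * m + r') : q = q' ∧ r = r' := by
  rcases lt_trichotomy q q' with h1 | h1 | h1
  · exact absurd h (ne_of_lt (div_unique_aux hr h1))
  · subst h1
    exact ⟨rfl, add_left_cancel h⟩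
  · exact absurd h (ne_of_gt (div_unique_aux hr' h1))

lemma pair_def (x y : 𝓜.M) : 𝓜.pair x y = (x + y) * (x + y) + x := rfl

lemma le_mul_self' (x : 𝓜.M) : x ≤ x * x := by
  rcases lt_or_eq_of_le (zero_le' x) with h | h
  · have := one_le_of_pos h
    calc x = 1 * x := by ring
      _ ≤ x * x := mul_le_mul_of_nonneg_right this (zero_le' x)
  · rw [← h]
    simp

lemma left_le_pair (x y : 𝓜.M) : x ≤ 𝓜.pair x y := by
  rw [pair_def]
  have := zero_le' ((x + y) * (x + y))
  grind

lemma right_le_pair (x y : 𝓜.M) : y ≤ 𝓜.pair x y := by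
  rw [pair_def]
  have := le_mul_self' (x + y)
  have := zero_le' x
  grind

lemma pair_aux {x y x' y' : 𝓜.M} (h : x + y < x' + y') : 𝓜.pair x y < 𝓜.pair x' y' := by
  rw [pair_def, pair_def]
  have h1 := succ_le' h
  have h2 : (x + y + 1) * (x + y + 1) ≤ (x' + y') * (x' + y') :=
    mul_le_mul h1 h1 (zero_le' _) (zero_le' _)
  have h3 : (x + y + 1) * (x + y + 1) = (x + y) * (x + y) + ((x + y) + (x + y) + 1) := by ring
  rw [h3] at h2
  have h4 := zero_le' x
  have h5 := zero_le' y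
  have h6 := zero_le' x'
  have h7 : (0 : 𝓜.M) < 1 := zero_lt_one
  generalize (x + y) * (x + y) = A at *
  generalize (x' + y') * (x' + y') = B at *
  grind

lemma pair_inj {x y x' y' : 𝓜.M} (h : 𝓜.pair x y = 𝓜.pair x' y') : x = x' ∧ y = y' := by
  rcases lt_trichotomy (x + y) (x' + y') with h1 | h1 | h1
  · exact absurd h (ne_of_lt (pair_aux h1))
  · rw [pair_def, pair_def, h1] at h
    have h2 := add_left_cancel h
    subst h2
    exact ⟨rfl, add_left_cancel h1⟩
  · exact absurd h (ne_of_gt (pair_aux h1))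

/-- A binary relation which belongs to the model. -/
def R2 (Q : 𝓜.M → 𝓜.M → Prop) : Prop := {n | ∃ x y, n = 𝓜.pair x y ∧ Q x y} ∈ 𝓜.S

lemma mem_R2 (Q : 𝓜.M → 𝓜.M → Prop) (x y : 𝓜.M) :
    𝓜.pair x y ∈ {n | ∃ x y, n = 𝓜.pair x y ∧ Q x y} ↔ Q x y := by
  constructor
  · rintro ⟨x', y', h1, h2⟩
    obtain ⟨rfl, rfl⟩ := pair_inj h1
    exact h2
  · intro h
    exact ⟨x, y, rfl, h⟩

lemma R2.mk {Q : 𝓜.M → 𝓜.M → Prop} (h : D0 (fun v => Q (v 0) (v 1))) : R2 Q := by
  have h1 : D0 (fun v : ℕ → 𝓜.M => ∃ y, y ≤ v 0 ∧ ∃ x, x ≤ v 0 ∧ v 0 = 𝓜.pair x y ∧ Q x y) := by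
    (repeat' (beta_reduce; first
      | assumption | with_reducible exact Tm.const _ | with_reducible exact Tm.var _
      | with_reducible apply Tm.add' | with_reducible apply Tm.mul'
      | with_reducible apply Tm.pair | with_reducible apply D0.eq' | with_reducible apply D0.lt'
      | with_reducible apply D0.le' | with_reducible apply D0.mem | with_reducible apply D0.and
      | with_reducible apply D0.or | with_reducible apply D0.iff | with_reducible apply D0.not
      | with_reducible apply D0.ball' | with_reducible apply D0.balle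
      | with_reducible apply D0.bex' | with_reducible apply D0.bexe
      | with_reducible apply D0.imp))
  have h2 := compr0 (P := fun n => ∃ y, y ≤ n ∧ ∃ x, x ≤ n ∧ n = 𝓜.pair x y ∧ Q x y) hW.out h1
  unfold R2
  convert h2 using 1
  ext n
  constructor
  · rintro ⟨x, y, rfl, h3⟩
    exact ⟨y, right_le_pair x y, x, left_le_pair x y, rfl, h3⟩
  · rintro ⟨y, _, x, _, h3, h4⟩
    exact ⟨x, y, h3, h4⟩

lemma D0.rel2 {Q : 𝓜.M → 𝓜.M → Prop} (hQ : R2 Q) {f g : (ℕ → 𝓜.M) → 𝓜.M} (hf : Tm f)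
    (hg : Tm g) : D0 (fun v => Q (f v) (g v)) :=
  (D0.mem (hf.pair hg) hQ).congr fun v => (mem_R2 Q _ _).symm

/-- The graph of a bounded function belongs to the model. -/
structure Fn (g : 𝓜.M → 𝓜.M) (B : 𝓜.M) : Prop where
  graph : R2 (fun x y => y = g x)
  lt : ∀ x, g x < B

lemma D0.fn {g : 𝓜.M → 𝓜.M} {B : 𝓜.M} (hg : Fn g B) {P : 𝓜.M → (ℕ → 𝓜.M) → Prop}
    {f : (ℕ → 𝓜.M) → 𝓜.M} (hf : Tm f) (hf' : Tm (fun v => f (fun n => v (n + 1))))
    (h : D0 (fun v => P (v 0) (fun n => v (n + 1)))) : D0 (fun v => P (g (f v)) v) := by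
  have h1 : D0 (fun v : ℕ → 𝓜.M => ∃ y, y < B ∧ (y = g (f v) ∧ P y v)) := by
    apply D0.bex' (Tm.const B)
    apply D0.and
    · exact D0.rel2 hg.graph hf' (Tm.var 0)
    · exact h
  refine h1.congr fun v => ?_
  constructor
  · intro h2
    exact ⟨_, hg.lt _, rfl, h2⟩
  · rintro ⟨y, _, rfl, h2⟩
    exact h2

/-! ### Powers -/

lemma entry_iff (a b i r : 𝓜.M) : 𝓜.Entry a b i r ↔
    r < 1 + (i + 1) * b ∧ ∃ q, q ≤ a ∧ a = q * (1 + (i + 1) * b) + r := by
  constructor
  · rintro ⟨h1, q, h2⟩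
    refine ⟨h1, q, ?_, h2⟩
    have h3 : a = q * (1 + (i + 1) * b) + r := h2
    have h4 : q * (1 + (i + 1) * b) = q + q * ((i + 1) * b) := by ring
    rw [h4] at h3
    have h5 := zero_le' (q * ((i + 1) * b))
    have h6 := zero_le' r
    rw [h3]
    generalize q * ((i + 1) * b) = A at *
    grind
  · rintro ⟨h1, q, _, h2⟩
    exact ⟨h1, q, h2⟩

lemma exists_pw (d : 𝓜.M) : ∃ (pw : 𝓜.M → 𝓜.M) (B : 𝓜.M), Fn pw B ∧ pw 0 = 1 ∧
    ∀ j, j < d → pw (j + 1) = pw j + pw j := by
  obtain ⟨y, a, b, h1, h2⟩ := hW.out.exp d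
  have hpos : ∀ i : 𝓜.M, 0 < 1 + (i + 1) * b := by
    intro i
    have := zero_le' ((i + 1) * b)
    exact lt_of_lt_of_le (zero_lt_one) (le_add_of_nonneg_right this)
  have hex : ∀ i : 𝓜.M, ∃ r, 𝓜.Entry a b i r := by
    intro i
    obtain ⟨q, _, r, h3, h4⟩ := div_exists (hpos i) a
    exact ⟨r, h3, q, h4⟩
  have huniq : ∀ i r r' : 𝓜.M, 𝓜.Entry a b i r → 𝓜.Entry a b i r' → r = r' := by
    rintro i r r' ⟨h3, q, h4⟩ ⟨h3', q', h4'⟩
    exact (div_unique h3 h3' (h4.symm.trans h4')).2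
  choose pw hpw using hex
  refine ⟨pw, a + 1, ⟨?_, ?_⟩, huniq _ _ _ (hpw 0) h1.1, ?_⟩
  · have h3 : R2 (fun i r => 𝓜.Entry a b i r) := by
      apply R2.mk
      have : D0 (𝓜 := 𝓜) (fun v => v 1 < 1 + (v 0 + 1) * b ∧
          ∃ q, q ≤ a ∧ a = q * (1 + (v 0 + 1) * b) + v 1) := by (repeat' (beta_reduce; first
            | assumption | with_reducible exact Tm.const _ | with_reducible exact Tm.var _
            | with_reducible apply Tm.add' | with_reducible apply Tm.mul'
            | with_reducible apply Tm.pair | with_reducible apply D0.eq'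
            | with_reducible apply D0.lt' | with_reducible apply D0.le'
            | with_reducible apply D0.mem | with_reducible apply D0.and
            | with_reducible apply D0.or | with_reducible apply D0.iff
            | with_reducible apply D0.not | with_reducible apply D0.ball'
            | with_reducible apply D0.balle | with_reducible apply D0.bex'
            | with_reducible apply D0.bexe | with_reducible apply D0.imp))
      exact this.congr fun v => entry_iff _ _ _ _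
    have h4 : (fun x y => y = pw x) = (fun i r => 𝓜.Entry a b i r) := by
      funext i r
      apply propext
      constructor
      · rintro rfl
        exact hpw i
      · intro h
        exact huniq _ _ _ h (hpw i)
    rw [h4]
    exact h3
  · intro i
    rw [lt_succ']
    obtain ⟨_, q, h3⟩ := hpw i
    have h4 : a = q * (1 + (i + 1) * b) + pw i := h3
    have h5 := zero_le' (q * (1 + (i + 1) * b))
    rw [h4]
    exact le_add_of_nonneg_left h5
  · intro j hj
    obtain ⟨r, h3, h4⟩ := h1.2 j hj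
    rw [huniq _ _ _ (hpw j) h3]
    exact huniq _ _ _ (hpw (j + 1)) h4

end Run7.h231.Star
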