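import Pool.Agent.Run7.h231.Star.Arith

/-! Binary digits, codes of bounded sets and collection in models of `RCA*₀`. -/

namespace Run7.h231.Star

open Function

set_option linter.unusedSectionVars false

variable {𝓜 : L2Model} [hW : Star 𝓜]

structure Pw (d : 𝓜.M) (pw : 𝓜.M → 𝓜.M) (B : 𝓜.M) : Prop where
  fn : Fn pw B
  zero : pw 0 = 1
  succ : ∀ j, j < d → pw (j + 1) = pw j + pw j

/-- The digit number `j` of `i` is `1`. -/
def Bit (pw : 𝓜.M → 𝓜.M) (j i : 𝓜.M) : Prop :=
  ∃ q r, r < pw j ∧ i = q * (pw j + pw j) + pw j + r

variable {d B : 𝓜.M} {pw : 𝓜.M → 𝓜.M}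

lemma Pw.pos (h : Pw d pw B) (j : 𝓜.M) (hj : j ≤ d) : 0 < pw j := by
  refine induct hW.out (P := fun j => j ≤ d → 0 < pw j) ?_ ?_ ?_ j hj
  · apply D0.imp (by (repeat' (beta_reduce; first
    | assumption | with_reducible exact Tm.const _ | with_reducible exact Tm.var _
    | with_reducible apply Tm.add' | with_reducible apply Tm.mul' | with_reducible apply Tm.pair
    | with_reducible apply D0.eq' | with_reducible apply D0.lt' | with_reducible apply D0.le'
    | with_reducible apply D0.mem | with_reducible apply D0.and | with_reducible apply D0.or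
    | with_reducible apply D0.iff | with_reducible apply D0.not | with_reducible apply D0.ball'
    | with_reducible apply D0.balle | with_reducible apply D0.bex'
    | with_reducible apply D0.bexe | with_reducible apply D0.imp)))
    exact D0.fn h.fn (P := fun w _ => 0 < w) (Tm.var 0) (Tm.var 1) (by (repeat' (beta_reduce; first
      | assumption | with_reducible exact Tm.const _ | with_reducible exact Tm.var _
      | with_reducible apply Tm.add' | with_reducible apply Tm.mul'
      | with_reducible apply Tm.pair | with_reducible apply D0.eq' | with_reducible apply D0.lt'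
      | with_reducible apply D0.le' | with_reducible apply D0.mem | with_reducible apply D0.and
      | with_reducible apply D0.or | with_reducible apply D0.iff | with_reducible apply D0.not
      | with_reducible apply D0.ball' | with_reducible apply D0.balle
      | with_reducible apply D0.bex' | with_reducible apply D0.bexe
      | with_reducible apply D0.imp)))
  · intro _
    show 0 < pw 0
    rw [h.zero]
    exact zero_lt_one
  · intro n ih hn
    have hn' : n + 1 ≤ d := hn
    have h1 : n < d := lt_of_lt_of_le (lt_add_one n) hn'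
    show 0 < pw (n + 1)
    rw [h.succ n h1]
    have := ih (le_of_lt h1)
    exact lt_of_lt_of_le this (le_add_of_nonneg_left (le_of_lt this))

lemma Pw.dvd (h : Pw d pw B) {j k : 𝓜.M} (hjk : j < k) (hk : k ≤ d) :
    ∃ c, pw k = c * (pw j + pw j) := by
  have key : ∀ k, j < k → k ≤ d → ∃ c, c ≤ pw k ∧ pw k = c * (pw j + pw j) := by
    intro k
    refine induct hW.out (P := fun k => j < k → k ≤ d → ∃ c, c ≤ pw k ∧
      pw k = c * (pw j + pw j)) ?_ ?_ ?_ k
    · apply D0.imp (by (repeat' (beta_reduce; first
      | assumption | with_reducible exact Tm.const _ | with_reducible exact Tm.var _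
      | with_reducible apply Tm.add' | with_reducible apply Tm.mul'
      | with_reducible apply Tm.pair | with_reducible apply D0.eq' | with_reducible apply D0.lt'
      | with_reducible apply D0.le' | with_reducible apply D0.mem | with_reducible apply D0.and
      | with_reducible apply D0.or | with_reducible apply D0.iff | with_reducible apply D0.not
      | with_reducible apply D0.ball' | with_reducible apply D0.balle
      | with_reducible apply D0.bex' | with_reducible apply D0.bexe
      | with_reducible apply D0.imp)))
      apply D0.imp (by (repeat' (beta_reduce; first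
        | assumption | with_reducible exact Tm.const _ | with_reducible exact Tm.var _
        | with_reducible apply Tm.add' | with_reducible apply Tm.mul'
        | with_reducible apply Tm.pair | with_reducible apply D0.eq'
        | with_reducible apply D0.lt' | with_reducible apply D0.le'
        | with_reducible apply D0.mem | with_reducible apply D0.and | with_reducible apply D0.or
        | with_reducible apply D0.iff | with_reducible apply D0.not
        | with_reducible apply D0.ball' | with_reducible apply D0.balle
        | with_reducible apply D0.bex' | with_reducible apply D0.bexe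
        | with_reducible apply D0.imp)))
      exact D0.fn h.fn (P := fun w _ => ∃ c, c ≤ w ∧ w = c * (pw j + pw j)) (Tm.var 0)
        (Tm.var 1) (by (repeat' (beta_reduce; first
          | assumption | with_reducible exact Tm.const _ | with_reducible exact Tm.var _
          | with_reducible apply Tm.add' | with_reducible apply Tm.mul'
          | with_reducible apply Tm.pair | with_reducible apply D0.eq'
          | with_reducible apply D0.lt' | with_reducible apply D0.le'
          | with_reducible apply D0.mem | with_reducible apply D0.and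
          | with_reducible apply D0.or | with_reducible apply D0.iff
          | with_reducible apply D0.not | with_reducible apply D0.ball'
          | with_reducible apply D0.balle | with_reducible apply D0.bex'
          | with_reducible apply D0.bexe | with_reducible apply D0.imp)))
    · intro h1
      exact absurd h1 (not_lt.2 (zero_le' j))
    · intro n ih h1 h2
      have h1' : j < n + 1 := h1
      have h2' : n + 1 ≤ d := h2
      have hn : n < d := lt_of_lt_of_le (lt_add_one n) h2'
      show ∃ c, c ≤ pw (n + 1) ∧ pw (n + 1) = c * (pw j + pw j)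
      have h3 := h.succ n hn
      have h4 : 0 < pw n := h.pos n (le_of_lt hn)
      rcases lt_or_eq_of_le (lt_succ'.1 h1') with h5 | h5
      · obtain ⟨c, h6, h7⟩ := ih h5 (le_of_lt hn)
        refine ⟨c + c, ?_, ?_⟩
        · rw [h3]
          exact add_le_add h6 h6
        · rw [h3, h7]
          ring
      · subst h5
        refine ⟨1, ?_, by rw [h3]; ring⟩
        rw [h3]
        have := one_le_of_pos h4
        exact le_trans this (le_add_of_nonneg_left (le_of_lt h4))
  obtain ⟨c, _, h1⟩ := key k hjk hk
  exact ⟨c, h1⟩

lemma R2_bit (h : Pw d pw B) : R2 (Bit pw) := by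
  apply R2.mk
  have h1 : D0 (𝓜 := 𝓜) (fun v => ∃ q, q ≤ v 1 ∧ ∃ r, r < pw (v 0) ∧
      v 1 = q * (pw (v 0) + pw (v 0)) + pw (v 0) + r) :=
    D0.fn h.fn (P := fun w v => ∃ q, q ≤ v 1 ∧ ∃ r, r < w ∧ v 1 = q * (w + w) + w + r) (Tm.var 0)
      (Tm.var 1) (by (repeat' (beta_reduce; first
        | assumption | with_reducible exact Tm.const _ | with_reducible exact Tm.var _
        | with_reducible apply Tm.add' | with_reducible apply Tm.mul'
        | with_reducible apply Tm.pair | with_reducible apply D0.eq'
        | with_reducible apply D0.lt' | with_reducible apply D0.le'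
        | with_reducible apply D0.mem | with_reducible apply D0.and | with_reducible apply D0.or
        | with_reducible apply D0.iff | with_reducible apply D0.not
        | with_reducible apply D0.ball' | with_reducible apply D0.balle
        | with_reducible apply D0.bex' | with_reducible apply D0.bexe
        | with_reducible apply D0.imp)))
  refine h1.congr fun v => ?_
  constructor
  · rintro ⟨q, r, h2, h3⟩
    refine ⟨q, ?_, r, h2, h3⟩
    have h4 : 0 < pw (v 0) := lt_of_le_of_lt (zero_le' r) h2
    have h5 := one_le_of_pos h4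
    have h6 : 1 ≤ pw (v 0) + pw (v 0) := le_trans h5 (le_add_of_nonneg_left (le_of_lt h4))
    have h7 : q * 1 ≤ q * (pw (v 0) + pw (v 0)) := mul_le_mul_of_nonneg_left h6 (zero_le' q)
    rw [mul_one] at h7
    rw [h3]
    exact le_trans (le_trans h7 (le_add_of_nonneg_right (le_of_lt h4)))
      (le_add_of_nonneg_right (zero_le' r))
  · rintro ⟨q, _, r, h2, h3⟩
    exact ⟨q, r, h2, h3⟩

lemma not_bit_of_lt {j i : 𝓜.M} (h : i < pw j) : ¬ Bit pw j i := by
  rintro ⟨q, r, h1, h2⟩
  have h3 : pw j ≤ i := by
    rw [h2]
    exact le_trans (le_add_of_nonneg_left (zero_le' _)) (le_add_of_nonneg_right (zero_le' r))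
  exact absurd h (not_lt.2 h3)

lemma bit_self {k i : 𝓜.M} (h : i < pw k) : Bit pw k (i + pw k) :=
  ⟨0, i, h, by ring⟩

lemma bit_add {j i c : 𝓜.M} (h : 0 < pw j) :
    Bit pw j (i + c * (pw j + pw j)) ↔ Bit pw j i := by
  constructor
  · rintro ⟨q, r, h1, h2⟩
    have h0 : 0 < pw j + pw j := lt_of_lt_of_le h (le_add_of_nonneg_left (le_of_lt h))
    obtain ⟨q', _, s, h3, h4⟩ := div_exists h0 i
    have h5 : (q' + c) * (pw j + pw j) + s = q * (pw j + pw j) + (pw j + r) := by
      rw [h4] at h2
      calc (q' + c) * (pw j + pw j) + s = q' * (pw j + pw j) + s + c * (pw j + pw j) := by ring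
        _ = _ := h2
        _ = _ := by ring
    obtain ⟨h6, h7⟩ := div_unique h3 (by
      exact add_lt_add_right h1 (pw j)) h5
    exact ⟨q', r, h1, by rw [h4, h7]; ring⟩
  · rintro ⟨q, r, h1, h2⟩
    exact ⟨q + c, r, h1, by rw [h2]; ring⟩

/-- Every set of the model has a code for each of its bounded parts. -/
lemma code_exists (h : Pw d pw B) {Z : Set 𝓜.M} (hZ : Z ∈ 𝓜.S) (k : 𝓜.M) (hk : k ≤ d) :
    ∃ e, e < pw k ∧ ∀ j, j < k → (Bit pw j e ↔ j ∈ Z) := by
  have hB := R2_bit h
  refine induct hW.out (P := fun k => k ≤ d → ∃ e, e < pw k ∧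
    ∀ j, j < k → (Bit pw j e ↔ j ∈ Z)) ?_ ?_ ?_ k hk
  · apply D0.imp (by (repeat' (beta_reduce; first
    | assumption | with_reducible exact Tm.const _ | with_reducible exact Tm.var _
    | with_reducible apply Tm.add' | with_reducible apply Tm.mul' | with_reducible apply Tm.pair
    | with_reducible apply D0.eq' | with_reducible apply D0.lt' | with_reducible apply D0.le'
    | with_reducible apply D0.mem | with_reducible apply D0.and | with_reducible apply D0.or
    | with_reducible apply D0.iff | with_reducible apply D0.not | with_reducible apply D0.ball'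
    | with_reducible apply D0.balle | with_reducible apply D0.bex'
    | with_reducible apply D0.bexe | with_reducible apply D0.imp)))
    refine D0.fn h.fn (P := fun w v => ∃ e, e < w ∧ ∀ j, j < v 0 → (Bit pw j e ↔ j ∈ Z))
      (Tm.var 0) (Tm.var 1) ?_
    have h1 : D0 (fun v : ℕ → 𝓜.M => Bit pw (v 0) (v 1)) := D0.rel2 hB (Tm.var 0) (Tm.var 1)
    (repeat' (beta_reduce; first
      | assumption | with_reducible exact Tm.const _ | with_reducible exact Tm.var _
      | with_reducible apply Tm.add' | with_reducible apply Tm.mul'
      | with_reducible apply Tm.pair | with_reducible apply D0.eq' | with_reducible apply D0.lt'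
      | with_reducible apply D0.le' | with_reducible apply D0.mem | with_reducible apply D0.and
      | with_reducible apply D0.or | with_reducible apply D0.iff | with_reducible apply D0.not
      | with_reducible apply D0.ball' | with_reducible apply D0.balle
      | with_reducible apply D0.bex' | with_reducible apply D0.bexe
      | with_reducible apply D0.imp))
  · intro _
    refine ⟨0, ?_, fun j hj => absurd hj (not_lt.2 (zero_le' j))⟩
    show 0 < pw 0
    rw [h.zero]
    exact zero_lt_one
  · intro n ih hn
    have hn' : n + 1 ≤ d := hn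
    have h1 : n < d := lt_of_lt_of_le (lt_add_one n) hn'
    obtain ⟨e, h2, h3⟩ := ih (le_of_lt h1)
    show ∃ e, e < pw (n + 1) ∧ ∀ j, j < n + 1 → (Bit pw j e ↔ j ∈ Z)
    have h4 := h.succ n h1
    have h5 := h.pos n (le_of_lt h1)
    by_cases hnZ : n ∈ Z
    · refine ⟨e + pw n, ?_, fun j hj => ?_⟩
      · rw [h4]
        exact add_lt_add_left h2 (pw n)
      · rcases lt_or_eq_of_le (lt_succ'.1 hj) with h6 | rfl
        · obtain ⟨c, hc⟩ := h.dvd h6 (le_of_lt h1)
          rw [hc, bit_add (h.pos j (le_trans (le_of_lt h6) (le_of_lt h1)))]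
          exact h3 j h6
        · exact iff_of_true (bit_self h2) hnZ
    · refine ⟨e, ?_, fun j hj => ?_⟩
      · rw [h4]
        exact lt_of_lt_of_le h2 (le_add_of_nonneg_left (le_of_lt h5))
      · rcases lt_or_eq_of_le (lt_succ'.1 hj) with h6 | rfl
        · exact h3 j h6
        · exact iff_of_false (not_bit_of_lt h2) hnZ

/-- Consecutive elements of `E`. -/
def Cons (E : Set 𝓜.M) (j j' : 𝓜.M) : Prop :=
  j ∈ E ∧ j' ∈ E ∧ j < j' ∧ ∀ l, l < j' → j < l → ¬ l ∈ E

/-- The digits at consecutive elements of `E` alternate. -/
lemma alt_exists (h : Pw d pw B) {E : Set 𝓜.M} (hE : E ∈ 𝓜.S) (k : 𝓜.M) (hk : k ≤ d) :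
    ∃ i, i < pw k ∧ ∀ j', j' < k → ∀ j, j < j' → Cons E j j' → (Bit pw j i ↔ ¬ Bit pw j' i) := by
  have hB := R2_bit h
  refine induct hW.out (P := fun k => k ≤ d → ∃ i, i < pw k ∧
    ∀ j', j' < k → ∀ j, j < j' → Cons E j j' → (Bit pw j i ↔ ¬ Bit pw j' i)) ?_ ?_ ?_ k hk
  · apply D0.imp (by (repeat' (beta_reduce; first
    | assumption | with_reducible exact Tm.const _ | with_reducible exact Tm.var _
    | with_reducible apply Tm.add' | with_reducible apply Tm.mul' | with_reducible apply Tm.pair
    | with_reducible apply D0.eq' | with_reducible apply D0.lt' | with_reducible apply D0.le'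
    | with_reducible apply D0.mem | with_reducible apply D0.and | with_reducible apply D0.or
    | with_reducible apply D0.iff | with_reducible apply D0.not | with_reducible apply D0.ball'
    | with_reducible apply D0.balle | with_reducible apply D0.bex'
    | with_reducible apply D0.bexe | with_reducible apply D0.imp)))
    refine D0.fn h.fn (P := fun w v => ∃ i, i < w ∧ ∀ j', j' < v 0 → ∀ j, j < j' →
      (j ∈ E ∧ j' ∈ E ∧ j < j' ∧ ∀ l, l < j' → j < l → ¬ l ∈ E) → (Bit pw j i ↔ ¬ Bit pw j' i))
      (Tm.var 0) (Tm.var 1) ?_
    have h1 : D0 (fun v : ℕ → 𝓜.M => Bit pw (v 0) (v 2)) := D0.rel2 hB (Tm.var 0) (Tm.var 2)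
    have h2 : D0 (fun v : ℕ → 𝓜.M => Bit pw (v 1) (v 2)) := D0.rel2 hB (Tm.var 1) (Tm.var 2)
    (repeat' (beta_reduce; first
      | assumption | with_reducible exact Tm.const _ | with_reducible exact Tm.var _
      | with_reducible apply Tm.add' | with_reducible apply Tm.mul'
      | with_reducible apply Tm.pair | with_reducible apply D0.eq' | with_reducible apply D0.lt'
      | with_reducible apply D0.le' | with_reducible apply D0.mem | with_reducible apply D0.and
      | with_reducible apply D0.or | with_reducible apply D0.iff | with_reducible apply D0.not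
      | with_reducible apply D0.ball' | with_reducible apply D0.balle
      | with_reducible apply D0.bex' | with_reducible apply D0.bexe
      | with_reducible apply D0.imp))
  · intro _
    refine ⟨0, ?_, fun j hj => absurd hj (not_lt.2 (zero_le' j))⟩
    show 0 < pw 0
    rw [h.zero]
    exact zero_lt_one
  · intro n ih hn
    have hn' : n + 1 ≤ d := hn
    have h1 : n < d := lt_of_lt_of_le (lt_add_one n) hn'
    obtain ⟨i, h2, h3⟩ := ih (le_of_lt h1)
    show ∃ i, i < pw (n + 1) ∧ ∀ j', j' < n + 1 → ∀ j, j < j' → Cons E j j' →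
      (Bit pw j i ↔ ¬ Bit pw j' i)
    have h4 := h.succ n h1
    have h5 := h.pos n (le_of_lt h1)
    by_cases hc : ∃ j, Cons E j n ∧ ¬ Bit pw j i
    · obtain ⟨j₀, hj₀, hj₀'⟩ := hc
      refine ⟨i + pw n, ?_, fun j' hj' j hj hjj' => ?_⟩
      · rw [h4]
        exact add_lt_add_left h2 (pw n)
      · have hold : ∀ l, l < n → (Bit pw l (i + pw n) ↔ Bit pw l i) := by
          intro l hl
          obtain ⟨c, hc⟩ := h.dvd hl (le_of_lt h1)
          rw [hc, bit_add (h.pos l (le_trans (le_of_lt hl) (le_of_lt h1)))]
        rcases lt_or_eq_of_le (lt_succ'.1 hj') with h6 | rfl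
        · rw [hold j' h6, hold j (lt_trans hj h6)]
          exact h3 j' h6 j hj hjj'
        · have hjj₀ : j = j₀ := by
            rcases lt_trichotomy j j₀ with h7 | h7 | h7
            · exact absurd hj₀.1 (hjj'.2.2.2 j₀ hj₀.2.2.1 h7)
            · exact h7
            · exact absurd hjj'.1 (hj₀.2.2.2 j hj h7)
          subst hjj₀
          rw [hold j hj]
          exact iff_of_false hj₀' (not_not.2 (bit_self h2))
    · refine ⟨i, ?_, fun j' hj' j hj hjj' => ?_⟩
      · rw [h4]
        exact lt_of_lt_of_le h2 (le_add_of_nonneg_left (le_of_lt h5))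
      · rcases lt_or_eq_of_le (lt_succ'.1 hj') with h6 | rfl
        · exact h3 j' h6 j hj hjj'
        · refine iff_of_true ?_ (not_bit_of_lt h2)
          by_contra hcon
          exact hc ⟨j, hjj', hcon⟩

/-- `Σ⁰₁` collection. -/
lemma collection {Q : 𝓜.M → 𝓜.M → Prop} (hQ : R2 Q) (k : 𝓜.M)
    (hk : ∀ e, e < k → ∃ x, Q e x) : ∃ b, ∀ e, e < k → ∃ x, x ≤ b ∧ Q e x := by
  let W : 𝓜.M → 𝓜.M → Prop := fun e x => ∃ y, y ≤ x ∧ Q e y
  have hW' : R2 W := by
    apply R2.mk
    have h1 : D0 (fun v : ℕ → 𝓜.M => Q (v 1) (v 0)) := D0.rel2 hQ (Tm.var 1) (Tm.var 0)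
    have h2 : D0 (fun v : ℕ → 𝓜.M => ∃ y, y ≤ v 1 ∧ Q (v 0) y) := by
      (repeat' (beta_reduce; first
        | assumption | with_reducible exact Tm.const _ | with_reducible exact Tm.var _
        | with_reducible apply Tm.add' | with_reducible apply Tm.mul'
        | with_reducible apply Tm.pair | with_reducible apply D0.eq'
        | with_reducible apply D0.lt' | with_reducible apply D0.le'
        | with_reducible apply D0.mem | with_reducible apply D0.and | with_reducible apply D0.or
        | with_reducible apply D0.iff | with_reducible apply D0.not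
        | with_reducible apply D0.ball' | with_reducible apply D0.balle
        | with_reducible apply D0.bex' | with_reducible apply D0.bexe
        | with_reducible apply D0.imp))
    exact h2
  have hmono : ∀ e x x', x ≤ x' → W e x → W e x' := by
    rintro e x x' h ⟨y, h1, h2⟩
    exact ⟨y, le_trans h1 h, h2⟩
  have htot : ∀ e, e < k → ∃ x, W e x := by
    intro e he
    obtain ⟨x, hx⟩ := hk e he
    exact ⟨x, x, le_rfl, hx⟩
  -- the order in which the witnesses arrive
  let Ord : Set 𝓜.M := {n | ∃ x, ∃ e', e' ≤ n ∧ ∃ e, e ≤ n ∧ n = 𝓜.pair e e' ∧ e < k ∧ e' < k ∧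
    W e x ∧ ¬ W e' x}
  have hOrd : Ord ∈ 𝓜.S := by
    have g1 : D0 (fun v : ℕ → 𝓜.M => W (v 0) (v 3)) := D0.rel2 hW' (Tm.var 0) (Tm.var 3)
    have g2 : D0 (fun v : ℕ → 𝓜.M => W (v 1) (v 3)) := D0.rel2 hW' (Tm.var 1) (Tm.var 3)
    have g3 : D0 (fun v : ℕ → 𝓜.M => W (v 1) (v 0)) := D0.rel2 hW' (Tm.var 1) (Tm.var 0)
    refine compr hW.out (P := fun n x => ∃ e', e' ≤ n ∧ ∃ e, e ≤ n ∧ n = 𝓜.pair e e' ∧ e < k ∧
      e' < k ∧ W e x ∧ ¬ W e' x) (Q := fun n x => ∃ e', e' ≤ n ∧ ∃ e, e ≤ n ∧
      n = 𝓜.pair e e' ∧ e < k ∧ e' < k ∧ (W e' x → ∃ x', x' < x ∧ W e x')) ?_ ?_ ?_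
    · (repeat' (beta_reduce; first
      | assumption | with_reducible exact Tm.const _ | with_reducible exact Tm.var _
      | with_reducible apply Tm.add' | with_reducible apply Tm.mul'
      | with_reducible apply Tm.pair | with_reducible apply D0.eq' | with_reducible apply D0.lt'
      | with_reducible apply D0.le' | with_reducible apply D0.mem | with_reducible apply D0.and
      | with_reducible apply D0.or | with_reducible apply D0.iff | with_reducible apply D0.not
      | with_reducible apply D0.ball' | with_reducible apply D0.balle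
      | with_reducible apply D0.bex' | with_reducible apply D0.bexe
      | with_reducible apply D0.imp))
    · (repeat' (beta_reduce; first
      | assumption | with_reducible exact Tm.const _ | with_reducible exact Tm.var _
      | with_reducible apply Tm.add' | with_reducible apply Tm.mul'
      | with_reducible apply Tm.pair | with_reducible apply D0.eq' | with_reducible apply D0.lt'
      | with_reducible apply D0.le' | with_reducible apply D0.mem | with_reducible apply D0.and
      | with_reducible apply D0.or | with_reducible apply D0.iff | with_reducible apply D0.not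
      | with_reducible apply D0.ball' | with_reducible apply D0.balle
      | with_reducible apply D0.bex' | with_reducible apply D0.bexe
      | with_reducible apply D0.imp))
    · intro n
      constructor
      · rintro ⟨x, e', h1, e, h2, h3, h4, h5, h6, h7⟩ x₁
        refine ⟨e', h1, e, h2, h3, h4, h5, fun h8 => ⟨x, ?_, h6⟩⟩
        by_contra hcon
        exact h7 (hmono _ _ _ (not_lt.1 hcon) h8)
      · intro h
        obtain ⟨e', h1, e, h2, h3, h4, h5, _⟩ := h 0
        obtain ⟨x₀, hx₀⟩ := htot e' h5
        obtain ⟨x₁, _, h6, h7⟩ := least (P := fun x => W e' x)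
          (D0.rel2 hW' (Tm.const e') (Tm.var 0)) hx₀
        obtain ⟨f', _, f, _, h8, _, _, h9⟩ := h x₁
        obtain ⟨rfl, rfl⟩ := pair_inj (h3.symm.trans h8)
        obtain ⟨x', h10, h11⟩ := h9 h6
        exact ⟨x', e', h1, e, h2, h3, h4, h5, h11, h7 x' h10⟩
  have hmem : ∀ e e', e < k → e' < k → (𝓜.pair e e' ∈ Ord ↔ ∃ x, W e x ∧ ¬ W e' x) := by
    intro e e' he he'
    constructor
    · rintro ⟨x, f', _, f, _, h1, _, _, h2, h3⟩
      obtain ⟨rfl, rfl⟩ := pair_inj h1
      exact ⟨x, h2, h3⟩
    · rintro ⟨x, h2, h3⟩
      exact ⟨x, e', right_le_pair _ _, e, left_le_pair _ _, rfl, he, he', h2, h3⟩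
  have key : ∀ m, m ≤ k → m = 0 ∨ ∃ e, e < m ∧ ∀ e', e' < m → ¬ 𝓜.pair e e' ∈ Ord := by
    intro m
    refine induct hW.out (P := fun m => m ≤ k → m = 0 ∨ ∃ e, e < m ∧
      ∀ e', e' < m → ¬ 𝓜.pair e e' ∈ Ord) (by (repeat' (beta_reduce; first
        | assumption | with_reducible exact Tm.const _ | with_reducible exact Tm.var _
        | with_reducible apply Tm.add' | with_reducible apply Tm.mul'
        | with_reducible apply Tm.pair | with_reducible apply D0.eq'
        | with_reducible apply D0.lt' | with_reducible apply D0.le'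
        | with_reducible apply D0.mem | with_reducible apply D0.and | with_reducible apply D0.or
        | with_reducible apply D0.iff | with_reducible apply D0.not
        | with_reducible apply D0.ball' | with_reducible apply D0.balle
        | with_reducible apply D0.bex' | with_reducible apply D0.bexe
        | with_reducible apply D0.imp))) ?_ ?_ m
    · intro _
      exact Or.inl rfl
    · intro n ih hn
      have hn' : n + 1 ≤ k := hn
      have h1 : n < k := lt_of_lt_of_le (lt_add_one n) hn'
      right
      show ∃ e, e < n + 1 ∧ ∀ e', e' < n + 1 → ¬ 𝓜.pair e e' ∈ Ord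
      rcases ih (le_of_lt h1) with h2 | ⟨e, h2, h3⟩
      · subst h2
        refine ⟨0, lt_add_one 0, fun e' he' => ?_⟩
        have he'' : e' = 0 := le_antisymm (lt_succ'.1 he') (zero_le' e')
        subst he''
        rw [hmem _ _ h1 h1]
        rintro ⟨x, h4, h5⟩
        exact h5 h4
      · by_cases h4 : 𝓜.pair e n ∈ Ord
        · refine ⟨n, lt_add_one n, fun e' he' h6 => ?_⟩
          rw [hmem _ _ (lt_trans h2 h1) h1] at h4
          obtain ⟨x₀, h7, h8⟩ := h4
          rcases lt_or_eq_of_le (lt_succ'.1 he') with h9 | h9
          · have h10 := h3 e' h9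
            rw [hmem _ _ (lt_trans h2 h1) (lt_trans h9 h1)] at h10
            rw [hmem _ _ h1 (lt_trans h9 h1)] at h6
            obtain ⟨x, h11, h12⟩ := h6
            apply h10
            refine ⟨x, ?_, h12⟩
            rcases le_total x₀ x with h13 | h13
            · exact hmono _ _ _ h13 h7
            · exact absurd (hmono _ _ _ h13 h11) h8
          · subst h9
            rw [hmem _ _ h1 h1] at h6
            obtain ⟨x, h11, h12⟩ := h6
            exact h12 h11
        · refine ⟨e, lt_trans h2 (lt_add_one n), fun e' he' => ?_⟩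
          rcases lt_or_eq_of_le (lt_succ'.1 he') with h9 | h9
          · exact h3 e' h9
          · rw [h9]
            exact h4
  rcases key k le_rfl with h1 | ⟨e, h1, h2⟩
  · subst h1
    exact ⟨0, fun e he => absurd he (not_lt.2 (zero_le' e))⟩
  · obtain ⟨b, hb⟩ := htot e h1
    refine ⟨b, fun e' he' => ?_⟩
    have h3 := h2 e' he'
    rw [hmem _ _ h1 he'] at h3
    by_contra hcon
    exact h3 ⟨b, hb, hcon⟩

end Run7.h231.Star
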