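import Pool.Agent.Run7.h231.Star.Defs

/-! A calculus for `Σ⁰₀` predicates in a structure for second-order arithmetic. -/

namespace Run7.h231.Star

open Function

/-! ### Renaming -/

def tren (r : ℕ → ℕ) : Trm → Trm
  | .var n => .var (r n)
  | .zero => .zero
  | .one => .one
  | .add s t => .add (tren r s) (tren r t)
  | .mul s t => .mul (tren r s) (tren r t)

def fren (r q : ℕ → ℕ) : Fml → Fml
  | .eq s t => .eq (tren r s) (tren r t)
  | .lt s t => .lt (tren r s) (tren r t)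
  | .mem t X => .mem (tren r t) (q X)
  | .neg φ => .neg (fren r q φ)
  | .and φ ψ => .and (fren r q φ) (fren r q ψ)
  | .ball x t φ => .ball (r x) (tren r t) (fren r q φ)
  | .all x φ => .all (r x) (fren r q φ)

variable {𝓜 : L2Model}

lemma tren_val (r : ℕ → ℕ) (t : Trm) (ρ : ℕ → 𝓜.M) :
    (tren r t).val 𝓜 ρ = t.val 𝓜 (fun n => ρ (r n)) := by
  induction t with
  | var n => rfl
  | zero => rfl
  | one => rfl
  | add s t ihs iht => simp only [tren, Trm.val, ihs, iht]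
  | mul s t ihs iht => simp only [tren, Trm.val, ihs, iht]

lemma upd_comp (r : ℕ → ℕ) (hr : Injective r) (ρ : ℕ → 𝓜.M) (x : ℕ) (a : 𝓜.M) :
    (fun n => update ρ (r x) a (r n)) = update (fun n => ρ (r n)) x a := by
  funext n
  by_cases h : n = x
  · subst h
    simp
  · rw [update_of_ne h, update_of_ne (fun h' => h (hr h'))]

lemma fren_sat (r q : ℕ → ℕ) (hr : Injective r) (φ : Fml) (Ξ : ℕ → Set 𝓜.M) (ρ : ℕ → 𝓜.M) :
    (fren r q φ).Sat 𝓜 Ξ ρ ↔ φ.Sat 𝓜 (fun X => Ξ (q X)) (fun n => ρ (r n)) := by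
  induction φ generalizing ρ with
  | eq s t => simp only [fren, Fml.Sat, tren_val]
  | lt s t => simp only [fren, Fml.Sat, tren_val]
  | mem t X => simp only [fren, Fml.Sat, tren_val]
  | neg φ ih => simp only [fren, Fml.Sat, ih]
  | and φ ψ ih1 ih2 => simp only [fren, Fml.Sat, ih1, ih2]
  | ball x t φ ih => simp only [fren, Fml.Sat, tren_val, ih, upd_comp r hr]
  | all x φ ih => simp only [fren, Fml.Sat, ih, upd_comp r hr]

lemma fren_bounded (r q : ℕ → ℕ) (φ : Fml) (h : φ.Bounded) : (fren r q φ).Bounded := by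
  induction φ with
  | eq s t => trivial
  | lt s t => trivial
  | mem t X => trivial
  | neg φ ih => exact ih h
  | and φ ψ ih1 ih2 => exact ⟨ih1 h.1, ih2 h.2⟩
  | ball x t φ ih => exact ih h
  | all x φ ih => exact h.elim

/-! ### Definable terms and predicates -/

/-- The even names are the variables, the odd names are the parameters. -/
def mix (v p : ℕ → 𝓜.M) : ℕ → 𝓜.M := fun n => if n % 2 = 0 then v (n / 2) else p (n / 2)

lemma mix_even (v p : ℕ → 𝓜.M) (n : ℕ) : mix v p (2 * n) = v n := by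
  unfold mix
  rw [if_pos (by omega)]
  congr 1
  omega

lemma mix_odd (v p : ℕ → 𝓜.M) (n : ℕ) : mix v p (2 * n + 1) = p n := by
  unfold mix
  rw [if_neg (by omega)]
  congr 1
  omega

def Tm (f : (ℕ → 𝓜.M) → 𝓜.M) : Prop :=
  ∃ (t : Trm) (p : ℕ → 𝓜.M), ∀ v, f v = t.val 𝓜 (mix v p)

def D0 (P : (ℕ → 𝓜.M) → Prop) : Prop :=
  ∃ (φ : Fml) (Ξ : ℕ → Set 𝓜.M) (p : ℕ → 𝓜.M), φ.Bounded ∧ (∀ k, Ξ k ∈ 𝓜.S) ∧
    ∀ v, P v ↔ φ.Sat 𝓜 Ξ (mix v p)

/-- Renaming which leaves the variables alone and puts the parameters on even places. -/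
def rl (n : ℕ) : ℕ := if n % 2 = 0 then n else 2 * (2 * (n / 2)) + 1
def rr (n : ℕ) : ℕ := if n % 2 = 0 then n else 2 * (2 * (n / 2) + 1) + 1

lemma rl_inj : Injective rl := by
  intro a b h
  unfold rl at h
  split_ifs at h <;> omega

lemma rr_inj : Injective rr := by
  intro a b h
  unfold rr at h
  split_ifs at h <;> omega

lemma mix_rl (v p q : ℕ → 𝓜.M) : (fun n => mix v (mix p q) (rl n)) = mix v p := by
  funext n
  unfold rl
  rcases Nat.mod_two_eq_zero_or_one n with h | h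
  · rw [if_pos h]
    obtain ⟨m, rfl⟩ : ∃ m, n = 2 * m := ⟨n / 2, by omega⟩
    rw [mix_even, mix_even]
  · rw [if_neg (by omega)]
    obtain ⟨m, rfl⟩ : ∃ m, n = 2 * m + 1 := ⟨n / 2, by omega⟩
    rw [mix_odd, mix_odd]
    have : (2 * m + 1) / 2 = m := by omega
    rw [this, mix_even]

lemma mix_rr (v p q : ℕ → 𝓜.M) : (fun n => mix v (mix p q) (rr n)) = mix v q := by
  funext n
  unfold rr
  rcases Nat.mod_two_eq_zero_or_one n with h | h
  · rw [if_pos h]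
    obtain ⟨m, rfl⟩ : ∃ m, n = 2 * m := ⟨n / 2, by omega⟩
    rw [mix_even, mix_even]
  · rw [if_neg (by omega)]
    obtain ⟨m, rfl⟩ : ∃ m, n = 2 * m + 1 := ⟨n / 2, by omega⟩
    rw [mix_odd, mix_odd]
    have : (2 * m + 1) / 2 = m := by omega
    rw [this, mix_odd]

lemma Tm.var (k : ℕ) : Tm (𝓜 := 𝓜) (fun v => v k) :=
  ⟨.var (2 * k), fun _ => 𝓜.zero, fun v => (mix_even v _ k).symm⟩

lemma Tm.const (c : 𝓜.M) : Tm (𝓜 := 𝓜) (fun _ => c) :=
  ⟨.var 1, fun _ => c, fun v => (mix_odd v (fun _ => c) 0).symm⟩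

lemma Tm.zero : Tm (𝓜 := 𝓜) (fun _ => 𝓜.zero) := Tm.const _
lemma Tm.one : Tm (𝓜 := 𝓜) (fun _ => 𝓜.one) := Tm.const _

lemma Tm.merge {f g : (ℕ → 𝓜.M) → 𝓜.M} (hf : Tm f) (hg : Tm g) :
    ∃ (s t : Trm) (p : ℕ → 𝓜.M), (∀ v, f v = s.val 𝓜 (mix v p)) ∧
      ∀ v, g v = t.val 𝓜 (mix v p) := by
  obtain ⟨s, p, hs⟩ := hf
  obtain ⟨t, q, ht⟩ := hg
  refine ⟨tren rl s, tren rr t, mix p q, fun v => ?_, fun v => ?_⟩
  · rw [tren_val, mix_rl, hs]
  · rw [tren_val, mix_rr, ht]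

lemma Tm.add {f g : (ℕ → 𝓜.M) → 𝓜.M} (hf : Tm f) (hg : Tm g) :
    Tm (fun v => 𝓜.add (f v) (g v)) := by
  obtain ⟨s, t, p, hs, ht⟩ := hf.merge hg
  exact ⟨.add s t, p, fun v => by simp only [Trm.val, hs, ht]⟩

lemma Tm.mul {f g : (ℕ → 𝓜.M) → 𝓜.M} (hf : Tm f) (hg : Tm g) :
    Tm (fun v => 𝓜.mul (f v) (g v)) := by
  obtain ⟨s, t, p, hs, ht⟩ := hf.merge hg
  exact ⟨.mul s t, p, fun v => by simp only [Trm.val, hs, ht]⟩

lemma Tm.pair {f g : (ℕ → 𝓜.M) → 𝓜.M} (hf : Tm f) (hg : Tm g) :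
    Tm (fun v => 𝓜.pair (f v) (g v)) :=
  ((hf.add hg).mul (hf.add hg)).add hf

lemma D0.congr {P Q : (ℕ → 𝓜.M) → Prop} (h : D0 P) (h' : ∀ v, Q v ↔ P v) : D0 Q := by
  obtain ⟨φ, Ξ, p, h1, h2, h3⟩ := h
  exact ⟨φ, Ξ, p, h1, h2, fun v => (h' v).trans (h3 v)⟩

lemma D0.eq (hS : 𝓜.S.Nonempty) {f g : (ℕ → 𝓜.M) → 𝓜.M} (hf : Tm f) (hg : Tm g) :
    D0 (fun v => f v = g v) := by
  obtain ⟨A, hA⟩ := hS
  obtain ⟨s, t, p, hs, ht⟩ := hf.merge hg
  exact ⟨.eq s t, fun _ => A, p, trivial, fun _ => hA, fun v => by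
    simp only [Fml.Sat, hs, ht]⟩

lemma D0.lt (hS : 𝓜.S.Nonempty) {f g : (ℕ → 𝓜.M) → 𝓜.M} (hf : Tm f) (hg : Tm g) :
    D0 (fun v => 𝓜.lt (f v) (g v)) := by
  obtain ⟨A, hA⟩ := hS
  obtain ⟨s, t, p, hs, ht⟩ := hf.merge hg
  exact ⟨.lt s t, fun _ => A, p, trivial, fun _ => hA, fun v => by
    simp only [Fml.Sat, hs, ht]⟩

lemma D0.mem {f : (ℕ → 𝓜.M) → 𝓜.M} (hf : Tm f) {Z : Set 𝓜.M} (hZ : Z ∈ 𝓜.S) :
    D0 (fun v => f v ∈ Z) := by
  obtain ⟨t, p, ht⟩ := hf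
  exact ⟨.mem t 0, fun _ => Z, p, trivial, fun _ => hZ, fun v => by
    simp only [Fml.Sat, ht]⟩

lemma D0.not {P : (ℕ → 𝓜.M) → Prop} (h : D0 P) : D0 (fun v => ¬ P v) := by
  obtain ⟨φ, Ξ, p, h1, h2, h3⟩ := h
  exact ⟨.neg φ, Ξ, p, h1, h2, fun v => by simp only [Fml.Sat, h3]⟩

/-- The merged set assignment. -/
def smix (Ξ Ξ' : ℕ → Set 𝓜.M) : ℕ → Set 𝓜.M :=
  fun n => if n % 2 = 0 then Ξ (n / 2) else Ξ' (n / 2)

lemma smix_even (v p : ℕ → Set 𝓜.M) (n : ℕ) : smix v p (2 * n) = v n := by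
  unfold smix
  rw [if_pos (by omega)]
  congr 1
  omega

lemma smix_odd (v p : ℕ → Set 𝓜.M) (n : ℕ) : smix v p (2 * n + 1) = p n := by
  unfold smix
  rw [if_neg (by omega)]
  congr 1
  omega

lemma D0.and {P Q : (ℕ → 𝓜.M) → Prop} (h : D0 P) (h' : D0 Q) :
    D0 (fun v => P v ∧ Q v) := by
  obtain ⟨φ, Ξ, p, h1, h2, h3⟩ := h
  obtain ⟨ψ, Ξ', p', h1', h2', h3'⟩ := h'
  refine ⟨.and (fren rl (fun n => 2 * n) φ) (fren rr (fun n => 2 * n + 1) ψ), smix Ξ Ξ',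
    mix p p', ⟨fren_bounded _ _ _ h1, fren_bounded _ _ _ h1'⟩, fun k => ?_, fun v => ?_⟩
  · unfold smix
    split_ifs
    · exact h2 _
    · exact h2' _
  · simp only [Fml.Sat]
    rw [fren_sat _ _ rl_inj, fren_sat _ _ rr_inj, mix_rl, mix_rr, h3, h3']
    simp only [smix_even, smix_odd]

lemma D0.or {P Q : (ℕ → 𝓜.M) → Prop} (h : D0 P) (h' : D0 Q) :
    D0 (fun v => P v ∨ Q v) :=
  (h.not.and h'.not).not.congr fun v => by tauto

lemma D0.imp {P Q : (ℕ → 𝓜.M) → Prop} (h : D0 P) (h' : D0 Q) :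
    D0 (fun v => P v → Q v) :=
  (h.and h'.not).not.congr fun v => by tauto

lemma D0.iff {P Q : (ℕ → 𝓜.M) → Prop} (h : D0 P) (h' : D0 Q) :
    D0 (fun v => P v ↔ Q v) :=
  ((h.imp h').and (h'.imp h)).congr fun v => by tauto

/-- Renaming for a bounded quantifier. -/
def rb (n : ℕ) : ℕ := if n = 0 then 1 else if n % 2 = 0 then n - 2 else n + 2

def rp (n : ℕ) : ℕ := if n % 2 = 0 then n else n + 2

lemma rb_inj : Injective rb := by
  intro a b h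
  unfold rb at h
  split_ifs at h <;> omega

lemma rp_inj : Injective rp := by
  intro a b h
  unfold rp at h
  split_ifs at h <;> omega

def cons (x : 𝓜.M) (v : ℕ → 𝓜.M) : ℕ → 𝓜.M
  | 0 => x
  | n + 1 => v n

@[simp] lemma cons_zero (x : 𝓜.M) (v : ℕ → 𝓜.M) : cons x v 0 = x := rfl
@[simp] lemma cons_succ (x : 𝓜.M) (v : ℕ → 𝓜.M) (n : ℕ) : cons x v (n+1) = v n := rfl

lemma mix_rp (v p : ℕ → 𝓜.M) (z : 𝓜.M) :
    (fun n => mix v (cons z p) (rp n)) = mix v p := by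
  funext n
  unfold rp
  rcases Nat.mod_two_eq_zero_or_one n with h | h
  · rw [if_pos h]
    obtain ⟨m, rfl⟩ : ∃ m, n = 2 * m := ⟨n / 2, by omega⟩
    rw [mix_even, mix_even]
  · rw [if_neg (by omega)]
    obtain ⟨m, rfl⟩ : ∃ m, n = 2 * m + 1 := ⟨n / 2, by omega⟩
    rw [mix_odd]
    have : 2 * m + 1 + 2 = 2 * (m + 1) + 1 := by omega
    rw [this, mix_odd]
    rfl

lemma mix_rb (v p : ℕ → 𝓜.M) (z a : 𝓜.M) :
    (fun n => update (mix v (cons z p)) 1 a (rb n)) = mix (cons a v) p := by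
  funext n
  unfold rb
  rcases Nat.mod_two_eq_zero_or_one n with h | h
  · by_cases h0 : n = 0
    · subst h0
      simp [mix]
    · rw [if_neg h0, if_pos h]
      obtain ⟨m, rfl⟩ : ∃ m, n = 2 * (m + 1) := ⟨n / 2 - 1, by omega⟩
      rw [update_of_ne (by omega)]
      have : 2 * (m + 1) - 2 = 2 * m := by omega
      rw [this, mix_even, mix_even]
      rfl
  · rw [if_neg (by omega), if_neg (by omega)]
    obtain ⟨m, rfl⟩ : ∃ m, n = 2 * m + 1 := ⟨n / 2, by omega⟩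
    rw [mix_odd, update_of_ne (by omega)]
    have : 2 * m + 1 + 2 = 2 * (m + 1) + 1 := by omega
    rw [this, mix_odd]
    rfl

lemma D0.ball {P : 𝓜.M → (ℕ → 𝓜.M) → Prop} {f : (ℕ → 𝓜.M) → 𝓜.M} (hf : Tm f)
    (h : D0 (fun v => P (v 0) (fun n => v (n + 1)))) :
    D0 (fun v => ∀ a, 𝓜.lt a (f v) → P a v) := by
  obtain ⟨t, q, ht⟩ := hf
  obtain ⟨φ, Ξ, p, h1, h2, h3⟩ := h
  refine ⟨.ball 1 (tren rp (tren rr t)) (fren rb id (fren rl id φ)), Ξ,
    cons 𝓜.zero (mix p q), fren_bounded _ _ _ (fren_bounded _ _ _ h1), h2, fun v => ?_⟩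
  simp only [Fml.Sat]
  rw [tren_val, mix_rp, tren_val, mix_rr, ← ht]
  apply forall_congr'
  intro a
  apply imp_congr_right
  intro _
  rw [fren_sat _ _ rb_inj, mix_rb, fren_sat _ _ rl_inj, mix_rl]
  exact h3 (cons a v)

lemma D0.bex {P : 𝓜.M → (ℕ → 𝓜.M) → Prop} {f : (ℕ → 𝓜.M) → 𝓜.M} (hf : Tm f)
    (h : D0 (fun v => P (v 0) (fun n => v (n + 1)))) :
    D0 (fun v => ∃ a, 𝓜.lt a (f v) ∧ P a v) :=
  (D0.ball (P := fun a v => ¬ P a v) hf h.not).not.congr fun v => by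
    push Not
    rfl

/-- Permutation of the names of the first two variables. -/
def rc (n : ℕ) : ℕ := if n = 0 then 0 else if n = 2 then 1 else if n % 2 = 0 then n else n + 2

lemma rc_inj : Injective rc := by
  intro a b h
  unfold rc at h
  split_ifs at h <;> omega

lemma mix_rc (p : ℕ → 𝓜.M) (a b z : 𝓜.M) :
    (fun n => update (update (mix (fun _ => z) (cons z p)) 0 a) 1 b (rc n)) =
      mix (cons a (cons b (fun _ => z))) p := by
  funext n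
  unfold rc
  rcases Nat.mod_two_eq_zero_or_one n with h | h
  · by_cases h0 : n = 0
    · subst h0
      simp [mix]
    · by_cases h2 : n = 2
      · subst h2
        simp [mix]
      · rw [if_neg h0, if_neg h2, if_pos h]
        obtain ⟨m, rfl⟩ : ∃ m, n = 2 * (m + 2) := ⟨n / 2 - 2, by omega⟩
        rw [update_of_ne (by omega), update_of_ne (by omega)]
        rw [mix_even, mix_even]
        rfl
  · rw [if_neg (by omega), if_neg (by omega), if_neg (by omega)]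
    obtain ⟨m, rfl⟩ : ∃ m, n = 2 * m + 1 := ⟨n / 2, by omega⟩
    rw [mix_odd, update_of_ne (by omega), update_of_ne (by omega)]
    have : 2 * m + 1 + 2 = 2 * (m + 1) + 1 := by omega
    rw [this, mix_odd]
    rfl

/-- `Δ⁰₁` comprehension. -/
lemma compr (H : RCA0Star 𝓜) {P Q : 𝓜.M → 𝓜.M → Prop} (hP : D0 (fun v => P (v 0) (v 1)))
    (hQ : D0 (fun v => Q (v 0) (v 1))) (h : ∀ n, (∃ x, P n x) ↔ ∀ x, Q n x) :
    {n | ∃ x, P n x} ∈ 𝓜.S := by
  obtain ⟨φ, Ξ, p, h1, h2, h3⟩ := hP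
  obtain ⟨ψ, Ξ', p', h1', h2', h3'⟩ := hQ
  let A := fren rc id (fren rl (fun n => 2 * n) φ)
  let B := fren rc id (fren rr (fun n => 2 * n + 1) ψ)
  let ρ : ℕ → 𝓜.M := mix (fun _ => 𝓜.zero) (cons 𝓜.zero (mix p p'))
  have hA : ∀ n x, A.Sat2 𝓜 (smix Ξ Ξ') ρ n x ↔ P n x := by
    intro n x
    unfold Fml.Sat2
    rw [fren_sat _ _ rc_inj, mix_rc, fren_sat _ _ rl_inj, mix_rl]
    simp only [id, smix_even]
    rw [← h3]
    rfl
  have hB : ∀ n x, B.Sat2 𝓜 (smix Ξ Ξ') ρ n x ↔ Q n x := by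
    intro n x
    unfold Fml.Sat2
    rw [fren_sat _ _ rc_inj, mix_rc, fren_sat _ _ rr_inj, mix_rr]
    simp only [id, smix_odd]
    rw [← h3']
    rfl
  obtain ⟨Z, hZ, hZ'⟩ := H.delta_comprehension A B (fren_bounded _ _ _ (fren_bounded _ _ _ h1))
    (fren_bounded _ _ _ (fren_bounded _ _ _ h1')) (smix Ξ Ξ') (fun k => by
      unfold smix
      split_ifs
      · exact h2 _
      · exact h2' _) ρ (fun n => by
      simp only [hA, hB]
      exact h n)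
  have : {n | ∃ x, P n x} = Z := by
    ext n
    rw [hZ']
    simp only [hA]
    rfl
  rw [this]
  exact hZ

lemma compr0 (H : RCA0Star 𝓜) {P : 𝓜.M → Prop} (hP : D0 (fun v => P (v 0))) :
    {n | P n} ∈ 𝓜.S := by
  have := compr H (P := fun n _ => P n) (Q := fun n _ => P n) hP hP
    (fun n => ⟨fun ⟨_, h⟩ _ => h, fun h => ⟨𝓜.zero, h 𝓜.zero⟩⟩)
  convert this using 1
  ext n
  exact ⟨fun h => ⟨𝓜.zero, h⟩, fun ⟨_, h⟩ => h⟩

lemma upd_mix (p : ℕ → 𝓜.M) (z a : 𝓜.M) :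
    update (mix (fun _ => z) p) 0 a = mix (cons a (fun _ => z)) p := by
  funext n
  by_cases h0 : n = 0
  · subst h0
    simp [mix]
  · rw [update_of_ne h0]
    rcases Nat.mod_two_eq_zero_or_one n with h | h
    · obtain ⟨m, rfl⟩ : ∃ m, n = 2 * (m + 1) := ⟨n / 2 - 1, by omega⟩
      rw [mix_even, mix_even]
      rfl
    · obtain ⟨m, rfl⟩ : ∃ m, n = 2 * m + 1 := ⟨n / 2, by omega⟩
      rw [mix_odd, mix_odd]

/-- Induction. -/
lemma induct (H : RCA0Star 𝓜) {P : 𝓜.M → Prop} (hP : D0 (fun v => P (v 0)))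
    (h0 : P 𝓜.zero) (hs : ∀ n, P n → P (𝓜.add n 𝓜.one)) (n : 𝓜.M) : P n := by
  obtain ⟨φ, Ξ, p, h1, h2, h3⟩ := hP
  have key : ∀ n, φ.Sat 𝓜 Ξ (update (mix (fun _ => 𝓜.zero) p) 0 n) ↔ P n := by
    intro n
    rw [upd_mix, ← h3]
    rfl
  have := H.bounded_induction φ h1 Ξ h2 (mix (fun _ => 𝓜.zero) p)
  simp only [key] at this
  exact this h0 hs n

/-- A bounded formula with the variables `0`, `1` and parameters. -/
def rd (n : ℕ) : ℕ := if n = 0 then 0 else if n = 1 then 2 else 2 * n + 1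

lemma rd_inj : Injective rd := by
  intro a b h
  unfold rd at h
  split_ifs at h <;> omega

lemma D0.of_sat2 (φ : Fml) (hφ : φ.Bounded) (Ξ : ℕ → Set 𝓜.M) (hΞ : ∀ k, Ξ k ∈ 𝓜.S)
    (ρ : ℕ → 𝓜.M) : D0 (fun v => φ.Sat2 𝓜 Ξ ρ (v 0) (v 1)) := by
  refine ⟨fren rd id φ, Ξ, ρ, fren_bounded _ _ _ hφ, hΞ, fun v => ?_⟩
  rw [fren_sat _ _ rd_inj]
  unfold Fml.Sat2
  have : (fun n => mix v ρ (rd n)) = update (update ρ 0 (v 0)) 1 (v 1) := by
    funext n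
    by_cases h0 : n = 0
    · subst h0
      simp [rd, mix]
    · by_cases h1 : n = 1
      · subst h1
        simp [rd, mix]
      · rw [update_of_ne h1, update_of_ne h0]
        unfold rd
        rw [if_neg h0, if_neg h1, mix_odd]
  rw [this]
  rfl

end Run7.h231.Star
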