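import Pool.Agent.Run7.h231.Defs

/-! `RCA*₀`, the cohesiveness principle, and `Π¹₁`-conservativity. Structures for the language of
second-order arithmetic (`L2Model`), number terms (`Trm`), arithmetical formulas (`Fml`) and their
satisfaction (`Fml.Sat`) are in `Pool.Agent.Run7.h231.Defs`. -/

namespace Run7.h231

namespace L2Model

variable (𝓜 : L2Model)

/-- `a, b` code (by Goedel's beta function, see `Entry`) a sequence of length `x + 1` which starts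
with `1` and in which every entry is twice the preceding one: the sequence `1, 2, 4, ..., 2^x`. -/
def PowSeq (x a b : 𝓜.M) : Prop :=
  𝓜.Entry a b 𝓜.zero 𝓜.one ∧
    ∀ i, 𝓜.lt i x → ∃ r, 𝓜.Entry a b i r ∧ 𝓜.Entry a b (𝓜.add i 𝓜.one) (𝓜.add r r)

/-- `y = 2^x`: `y` is the last entry of the sequence `1, 2, 4, ..., 2^x`. -/
def IsPow (x y : 𝓜.M) : Prop := ∃ a b, 𝓜.PowSeq x a b ∧ 𝓜.Entry a b x y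

/-- A finite (that is, bounded) set. -/
def Fin (X : Set 𝓜.M) : Prop := ∃ b, ∀ x ∈ X, 𝓜.lt x b

/-- The cohesiveness principle. A sequence `(R_i)` of sets is given by one set `R`, with
`R_i = {x | pair i x ∈ R}`. -/
def COH : Prop := ∀ R ∈ 𝓜.S, ∃ C ∈ 𝓜.S, 𝓜.Inf C ∧
  ∀ i, 𝓜.Fin {x | x ∈ C ∧ 𝓜.pair i x ∉ R} ∨ 𝓜.Fin {x | x ∈ C ∧ 𝓜.pair i x ∈ R}

/-- Induction for `Σ⁰₁` formulas with number and set parameters. -/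
def SigmaInd : Prop := ∀ φ : Fml, φ.Bounded → ∀ Ξ : ℕ → Set 𝓜.M, (∀ k, Ξ k ∈ 𝓜.S) →
    ∀ ρ : ℕ → 𝓜.M, (∃ x, φ.Sat2 𝓜 Ξ ρ 𝓜.zero x) →
      (∀ n, (∃ x, φ.Sat2 𝓜 Ξ ρ n x) → ∃ x, φ.Sat2 𝓜 Ξ ρ (𝓜.add n 𝓜.one) x) →
      ∀ n, ∃ x, φ.Sat2 𝓜 Ξ ρ n x

/-- The `Π¹₁` sentence which is the universal closure of the arithmetical formula `θ` (for the
number variables and the set variables) is true in the structure. -/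
def TruePi11 (θ : Fml) : Prop :=
  ∀ Ξ : ℕ → Set 𝓜.M, (∀ k, Ξ k ∈ 𝓜.S) → ∀ ρ : ℕ → 𝓜.M, θ.Sat 𝓜 Ξ ρ

end L2Model

/-- The axioms of `RCA*₀`: discretely ordered commutative semirings, `2^x` is total, induction for
`Σ⁰₀` formulas with set parameters, and `Δ⁰₁` comprehension. -/
structure RCA0Star (𝓜 : L2Model) : Prop where
  add_assoc : ∀ x y z, 𝓜.add (𝓜.add x y) z = 𝓜.add x (𝓜.add y z)
  add_comm : ∀ x y, 𝓜.add x y = 𝓜.add y x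
  add_zero : ∀ x, 𝓜.add x 𝓜.zero = x
  mul_assoc : ∀ x y z, 𝓜.mul (𝓜.mul x y) z = 𝓜.mul x (𝓜.mul y z)
  mul_comm : ∀ x y, 𝓜.mul x y = 𝓜.mul y x
  mul_one : ∀ x, 𝓜.mul x 𝓜.one = x
  mul_zero : ∀ x, 𝓜.mul x 𝓜.zero = 𝓜.zero
  mul_add : ∀ x y z, 𝓜.mul x (𝓜.add y z) = 𝓜.add (𝓜.mul x y) (𝓜.mul x z)
  lt_irrefl : ∀ x, ¬ 𝓜.lt x x
  lt_trans : ∀ x y z, 𝓜.lt x y → 𝓜.lt y z → 𝓜.lt x z
  lt_total : ∀ x y, 𝓜.lt x y ∨ x = y ∨ 𝓜.lt y x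
  add_lt : ∀ x y z, 𝓜.lt x y → 𝓜.lt (𝓜.add x z) (𝓜.add y z)
  mul_lt : ∀ x y z, 𝓜.lt x y → 𝓜.lt 𝓜.zero z → 𝓜.lt (𝓜.mul x z) (𝓜.mul y z)
  exists_sub : ∀ x y, 𝓜.lt x y → ∃ z, 𝓜.add x z = y
  zero_lt_one : 𝓜.lt 𝓜.zero 𝓜.one
  not_lt_zero : ∀ x, ¬ 𝓜.lt x 𝓜.zero
  discrete : ∀ x, ¬ (𝓜.lt 𝓜.zero x ∧ 𝓜.lt x 𝓜.one)
  exp : ∀ x, ∃ y, 𝓜.IsPow x y
  sets_nonempty : 𝓜.S.Nonempty
  bounded_induction : ∀ φ : Fml, φ.Bounded → ∀ Ξ : ℕ → Set 𝓜.M, (∀ k, Ξ k ∈ 𝓜.S) →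
    ∀ ρ : ℕ → 𝓜.M, φ.Sat 𝓜 Ξ (Function.update ρ 0 𝓜.zero) →
      (∀ n, φ.Sat 𝓜 Ξ (Function.update ρ 0 n) →
        φ.Sat 𝓜 Ξ (Function.update ρ 0 (𝓜.add n 𝓜.one))) →
      ∀ n, φ.Sat 𝓜 Ξ (Function.update ρ 0 n)
  delta_comprehension : ∀ φ ψ : Fml, φ.Bounded → ψ.Bounded →
    ∀ Ξ : ℕ → Set 𝓜.M, (∀ k, Ξ k ∈ 𝓜.S) → ∀ ρ : ℕ → 𝓜.M,
      (∀ n, (∃ x, φ.Sat2 𝓜 Ξ ρ n x) ↔ ∀ x, ψ.Sat2 𝓜 Ξ ρ n x) →
      ∃ Z ∈ 𝓜.S, ∀ n, n ∈ Z ↔ ∃ x, φ.Sat2 𝓜 Ξ ρ n x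

/-- The theory with the class `T` of models is `Π¹₁`-conservative over the theory with the class
`T'` of models: every `Π¹₁` sentence which holds in all models of the first theory holds in all
models of the second theory. -/
def Pi11Conservative (T T' : L2Model → Prop) : Prop :=
  ∀ θ : Fml, (∀ 𝓜, T 𝓜 → 𝓜.TruePi11 θ) → ∀ 𝓜, T' 𝓜 → 𝓜.TruePi11 θ

end Run7.h231
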