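import Pool.Agent.Run7.h231.Star.Bits

/-! Over `RCA*₀` the cohesiveness principle implies `Σ⁰₁` induction. -/

namespace Run7.h231.Star

open Function

set_option linter.unusedSectionVars false

variable {𝓜 : L2Model} [hW : Star 𝓜]

lemma no_h (hC : 𝓜.COH) (d : 𝓜.M) (h : 𝓜.M → 𝓜.M) (hF : Fn h d)
    (hmono : ∀ x y, x ≤ y → h x ≤ h y) (hnomax : ∀ x, ∃ y, h x < h y) : False := by
  obtain ⟨pw, B, hpw1, hpw2, hpw3⟩ := exists_pw d
  have hpw : Pw d pw B := ⟨hpw1, hpw2, hpw3⟩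
  have hB := R2_bit hpw
  have hR : R2 (fun i x => Bit pw (h x) i) := by
    apply R2.mk
    exact D0.fn hF (P := fun j v => Bit pw j (v 0)) (Tm.var 1) (Tm.var 2)
      (D0.rel2 hB (Tm.var 0) (Tm.var 1))
  obtain ⟨C, hCS, hCinf, hCoh⟩ := hC _ hR
  -- the trace of `C` below `x`
  let D : 𝓜.M → 𝓜.M → Prop := fun j x => ∃ y, y ≤ x ∧ y ∈ C ∧ j = h y
  have hD : R2 D := by
    apply R2.mk
    have h1 : D0 (fun v : ℕ → 𝓜.M => v 1 = h (v 0)) :=
      D0.rel2 hF.graph (Tm.var 0) (Tm.var 1)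
    have h2 : D0 (fun v : ℕ → 𝓜.M => ∃ y, y ≤ v 1 ∧ y ∈ C ∧ v 0 = h y) := by
      (repeat' (beta_reduce; first
        | assumption | with_reducible exact Tm.const _ | with_reducible exact Tm.var _
        | with_reducible apply Tm.add' | with_reducible apply Tm.mul'
        | with_reducible apply Tm.pair | with_reducible apply D0.eq'
        | with_reducible apply D0.lt' | with_reducible apply D0.le'
        | with_reducible apply D0.mem | with_reducible apply D0.and | with_reducible apply D0.or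
        | with_reducible apply D0.iff | with_reducible apply D0.not
        | with_reducible apply D0.ball' | with_reducible apply D0.balle
        | with_reducible apply D0.bex' | with_reducible apply D0.bexe
        | with_reducible apply D0.imp))
    exact h2
  have hDx : ∀ j x x', x ≤ x' → j < h x → (D j x ↔ D j x') := by
    intro j x x' hx hj
    constructor
    · rintro ⟨y, h1, h2, h3⟩
      exact ⟨y, le_trans h1 hx, h2, h3⟩
    · rintro ⟨y, h1, h2, h3⟩
      refine ⟨y, ?_, h2, h3⟩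
      by_contra hcon
      have := hmono x y (le_of_lt (not_le.1 hcon))
      rw [← h3] at this
      exact absurd hj (not_lt.2 this)
  obtain ⟨e, he⟩ : ∃ e, ∀ x j, j < h x → (Bit pw j e ↔ D j x) := by
    by_contra hcon
    push Not at hcon
    let Bad : 𝓜.M → 𝓜.M → Prop := fun e x => ∃ j, j < h x ∧ ¬ (Bit pw j e ↔ D j x)
    have hBad : R2 Bad := by
      apply R2.mk
      refine D0.fn hF (P := fun w v => ∃ j, j < w ∧ ¬ (Bit pw j (v 0) ↔ D j (v 1))) (Tm.var 1)
        (Tm.var 2) ?_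
      have h1 : D0 (fun v : ℕ → 𝓜.M => Bit pw (v 0) (v 2)) := D0.rel2 hB (Tm.var 0) (Tm.var 2)
      have h2 : D0 (fun v : ℕ → 𝓜.M => D (v 0) (v 3)) := D0.rel2 hD (Tm.var 0) (Tm.var 3)
      (repeat' (beta_reduce; first
        | assumption | with_reducible exact Tm.const _ | with_reducible exact Tm.var _
        | with_reducible apply Tm.add' | with_reducible apply Tm.mul'
        | with_reducible apply Tm.pair | with_reducible apply D0.eq'
        | with_reducible apply D0.lt' | with_reducible apply D0.le'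
        | with_reducible apply D0.mem | with_reducible apply D0.and | with_reducible apply D0.or
        | with_reducible apply D0.iff | with_reducible apply D0.not
        | with_reducible apply D0.ball' | with_reducible apply D0.balle
        | with_reducible apply D0.bex' | with_reducible apply D0.bexe
        | with_reducible apply D0.imp))
    obtain ⟨b, hb⟩ := collection hBad (pw d) (fun e _ => by
      obtain ⟨x, j, h1, h2⟩ := hcon e
      refine ⟨x, j, h1, fun h3 => ?_⟩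
      rcases h2 with ⟨h4, h5⟩ | ⟨h4, h5⟩
      · exact h5 (h3.1 h4)
      · exact h4 (h3.2 h5))
    have hZ : {j | D j b} ∈ 𝓜.S := compr0 hW.out (D0.rel2 hD (Tm.var 0) (Tm.const b))
    obtain ⟨e, h1, h2⟩ := code_exists hpw hZ d le_rfl
    obtain ⟨x, h3, j, h4, h5⟩ := hb e h1
    apply h5
    rw [hDx j x b h3 h4]
    exact h2 j (lt_trans h4 (hF.lt x))
  have hE : {j | Bit pw j e} ∈ 𝓜.S := compr0 hW.out (D0.rel2 hB (Tm.var 0) (Tm.const e))
  set E : Set 𝓜.M := {j | Bit pw j e} with hEdef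
  have hEmem : ∀ y ∈ C, h y ∈ E := by
    intro y hy
    obtain ⟨z, hz⟩ := hnomax y
    have h1 : y ≤ z := by
      by_contra hcon
      exact absurd hz (not_lt.2 (hmono z y (le_of_lt (not_le.1 hcon))))
    exact (he z (h y) hz).2 ⟨y, h1, hy, rfl⟩
  obtain ⟨i, _, hi⟩ := alt_exists hpw hE d le_rfl
  obtain ⟨β, hβ⟩ : ∃ β, (∀ x ∈ C, β ≤ x → Bit pw (h x) i) ∨
      (∀ x ∈ C, β ≤ x → ¬ Bit pw (h x) i) := by
    rcases hCoh i with ⟨β, h1⟩ | ⟨β, h1⟩
    · refine ⟨β, Or.inl fun x hx hβ => ?_⟩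
      by_contra hcon
      have h2 : 𝓜.lt x β := h1 x ⟨hx, fun h3 => hcon ((mem_R2 (fun i x => Bit pw (h x) i) _ _).1 h3)⟩
      have h3 : x < β := h2
      exact absurd hβ (not_le.2 h3)
    · refine ⟨β, Or.inr fun x hx hβ hcon => ?_⟩
      have h2 : 𝓜.lt x β := h1 x ⟨hx, (mem_R2 (fun i x => Bit pw (h x) i) _ _).2 hcon⟩
      have h3 : x < β := h2
      exact absurd hβ (not_le.2 h3)
  obtain ⟨y₁, hy₁, hβ₁⟩ := hCinf β
  have hβ₁' : β < y₁ := hβ₁
  obtain ⟨z, hz⟩ := hnomax y₁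
  obtain ⟨y₂, hy₂, hz₂⟩ := hCinf z
  have hz₂' : z < y₂ := hz₂
  have h12 : h y₁ < h y₂ := lt_of_lt_of_le hz (hmono z y₂ (le_of_lt hz₂'))
  obtain ⟨j', hj1, ⟨hj2, hj3⟩, hj4⟩ := least (P := fun j => h y₁ < j ∧ j ∈ E)
    (D0.and (D0.lt' (Tm.const _) (Tm.var 0)) (D0.mem (Tm.var 0) hE)) (x := h y₂)
    ⟨h12, hEmem y₂ hy₂⟩
  have hcons : Cons E (h y₁) j' := ⟨hEmem y₁ hy₁, hj3, hj2, fun l h1 h2 h3 => hj4 l h1 ⟨h2, h3⟩⟩
  have halt := hi j' (lt_of_le_of_lt hj1 (hF.lt y₂)) (h y₁) hj2 hcons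
  obtain ⟨z', hz'⟩ := hnomax y₂
  obtain ⟨y', _, hy', hyj⟩ := (he z' j' (lt_of_le_of_lt hj1 hz')).1 hj3
  have hy₁' : y₁ ≤ y' := by
    by_contra hcon
    have := hmono y' y₁ (le_of_lt (not_le.1 hcon))
    rw [← hyj] at this
    exact absurd hj2 (not_lt.2 this)
  have hβ' : β ≤ y' := le_trans (le_of_lt hβ₁') hy₁'
  rcases hβ with h1 | h1
  · have h2 := h1 y₁ hy₁ (le_of_lt hβ₁')
    have h3 := h1 y' hy' hβ'
    rw [← hyj] at h3
    exact halt.1 h2 h3
  · have h2 := h1 y₁ hy₁ (le_of_lt hβ₁')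
    have h3 := h1 y' hy' hβ'
    rw [← hyj] at h3
    exact h2 (halt.2 h3)

theorem sigmaInd_of_coh (hC : 𝓜.COH) : 𝓜.SigmaInd := by
  intro φ hφ Ξ hΞ ρ h0 hs d
  by_contra hd
  have hT : R2 (fun n x => φ.Sat2 𝓜 Ξ ρ n x) := R2.mk (D0.of_sat2 φ hφ Ξ hΞ ρ)
  set T : 𝓜.M → 𝓜.M → Prop := fun n x => φ.Sat2 𝓜 Ξ ρ n x with hTdef
  have h0' : ∃ x, T 0 x := h0
  have hs' : ∀ n, (∃ x, T n x) → ∃ x, T (n + 1) x := hs
  have hd' : ¬ ∃ x, T d x := hd
  let G : 𝓜.M → 𝓜.M → Prop := fun n x => ∀ m, m < n → ∃ y, y ≤ x ∧ T m y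
  have hG : R2 G := by
    apply R2.mk
    have h1 : D0 (fun v : ℕ → 𝓜.M => T (v 1) (v 0)) := D0.rel2 hT (Tm.var 1) (Tm.var 0)
    have h2 : D0 (fun v : ℕ → 𝓜.M => ∀ m, m < v 0 → ∃ y, y ≤ v 1 ∧ T m y) := by (repeat' (beta_reduce; first
      | assumption | with_reducible exact Tm.const _ | with_reducible exact Tm.var _
      | with_reducible apply Tm.add' | with_reducible apply Tm.mul'
      | with_reducible apply Tm.pair | with_reducible apply D0.eq' | with_reducible apply D0.lt'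
      | with_reducible apply D0.le' | with_reducible apply D0.mem | with_reducible apply D0.and
      | with_reducible apply D0.or | with_reducible apply D0.iff | with_reducible apply D0.not
      | with_reducible apply D0.ball' | with_reducible apply D0.balle
      | with_reducible apply D0.bex' | with_reducible apply D0.bexe
      | with_reducible apply D0.imp))
    exact h2
  have hGx : ∀ n x x', x ≤ x' → G n x → G n x' := by
    intro n x x' hx hg m hm
    obtain ⟨y, h1, h2⟩ := hg m hm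
    exact ⟨y, le_trans h1 hx, h2⟩
  have hGn : ∀ n n' x, n ≤ n' → G n' x → G n x := by
    intro n n' x hn hg m hm
    exact hg m (lt_of_lt_of_le hm hn)
  have hGT : ∀ n x, G n x → ∃ y, T n y := by
    intro n x hg
    rcases eq_zero_or_succ n with rfl | ⟨m, rfl⟩
    · exact h0'
    · obtain ⟨y, _, h2⟩ := hg m (lt_add_one m)
      exact hs' m ⟨y, h2⟩
  have hGd : ∀ x, ¬ G d x := fun x hg => hd' (hGT d x hg)
  have hex : ∀ x, ∃ n, G n x ∧ ¬ G (n + 1) x := by
    intro x
    obtain ⟨n, _, h1, h2⟩ := least (P := fun n => ¬ G n x)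
      (D0.not (D0.rel2 hG (Tm.var 0) (Tm.const x))) (hGd x)
    rcases eq_zero_or_succ n with rfl | ⟨m, rfl⟩
    · exact absurd (fun m hm => absurd hm (not_lt.2 (zero_le' m))) h1
    · exact ⟨m, not_not.1 (h2 m (lt_add_one m)), h1⟩
  choose h hh1 hh2 using hex
  have huniq : ∀ x n, G n x → ¬ G (n + 1) x → n = h x := by
    intro x n h1 h2
    rcases lt_trichotomy n (h x) with h3 | h3 | h3
    · exact absurd (hGn _ _ _ (succ_le' h3) (hh1 x)) h2
    · exact h3
    · exact absurd (hGn _ _ _ (succ_le' h3) h1) (hh2 x)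
  refine no_h hC d h ⟨?_, ?_⟩ ?_ ?_
  · apply R2.mk
    have h1 : D0 (fun v : ℕ → 𝓜.M => G (v 1) (v 0) ∧ ¬ G (v 1 + 1) (v 0)) :=
      D0.and (D0.rel2 hG (Tm.var 1) (Tm.var 0))
        (D0.not (D0.rel2 hG ((Tm.var 1).add' (Tm.const 1)) (Tm.var 0)))
    refine h1.congr fun v => ?_
    constructor
    · intro h2
      rw [h2]
      exact ⟨hh1 _, hh2 _⟩
    · rintro ⟨h2, h3⟩
      exact huniq _ _ h2 h3
  · intro x
    by_contra hcon
    exact hGd x (hGn _ _ _ (not_lt.1 hcon) (hh1 x))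
  · intro x y hxy
    by_contra hcon
    exact hh2 y (hGn _ _ _ (succ_le' (not_le.1 hcon)) (hGx _ _ _ hxy (hh1 x)))
  · intro x
    obtain ⟨y, hy⟩ := hGT (h x) x (hh1 x)
    refine ⟨max x y, ?_⟩
    by_contra hcon
    have h1 : G (h x + 1) (max x y) := by
      intro m hm
      rcases lt_or_eq_of_le (lt_succ'.1 hm) with h2 | rfl
      · obtain ⟨y', h3, h4⟩ := hh1 x m h2
        exact ⟨y', le_trans h3 (le_max_left _ _), h4⟩
      · exact ⟨y, le_max_right _ _, hy⟩
    have h2 := hGn (h (max x y) + 1) (h x + 1) (max x y) (by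
      have := not_lt.1 hcon
      exact add_le_add_left this 1) h1
    exact hh2 _ h2

end Run7.h231.Star
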